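import Pool.Agent.W123.RU.Sieve
import Pool.Agent.W123.RU.Prime

set_option autoImplicit false

/-!
# Small tools
-/

namespace Pool.Agent.W123.RU

open Finset Filter Pool.Agent.H373R2.T7 Pool.Agent.W123.RP

lemma not_mem_pz {t : ℝ} {p : ℕ} (hp : p.Prime) (h : p ∉ pz ⌊t⌋₊) : t < p := by
  rw [mem_pz, not_and] at h
  by_contra hcon
  rw [not_lt] at hcon
  exact h (Nat.le_floor hcon) hp

lemma mem_pz' {t : ℝ} {p : ℕ} (ht : 0 ≤ t) (h : p ∈ pz ⌊t⌋₊) : (p : ℝ) ≤ t := by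
  rw [mem_pz] at h
  exact (Nat.le_floor_iff ht).1 h.1

/-- few prime factors if all are large -/
lemma length_le (N r : ℕ) (hN : N ≠ 0) (z : ℝ)
    (h : ∀ p : ℕ, p.Prime → p ∣ N → z < (p : ℝ)) (hlt : (N : ℝ) ≤ z ^ (r + 1)) (hz1 : 1 ≤ z) :
    N.primeFactorsList.length ≤ r := by
  by_contra hcon
  push Not at hcon
  have h1 : ∀ l : List ℕ, (∀ p ∈ l, z ≤ (p : ℝ)) → z ^ l.length ≤ ((l.prod : ℕ) : ℝ) := by
    intro l
    induction l with
    | nil => intro _; simp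
    | cons a l ih =>
      intro hl
      rw [List.length_cons, List.prod_cons, pow_succ, mul_comm, Nat.cast_mul]
      have h2 := ih (fun p hp => hl p (List.mem_cons_of_mem _ hp))
      have h3 := hl a List.mem_cons_self
      exact mul_le_mul h3 h2 (by positivity) (by positivity)
  have hl : N.primeFactorsList ≠ [] := by
    intro h0
    rw [h0] at hcon
    simp at hcon
  obtain ⟨a, l, hal⟩ : ∃ a l, N.primeFactorsList = a :: l := by
    cases hN' : N.primeFactorsList with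
    | nil => exact absurd hN' hl
    | cons a l => exact ⟨a, l, rfl⟩
  have hprod := Nat.prod_primeFactorsList hN
  rw [hal, List.prod_cons] at hprod
  rw [hal, List.length_cons] at hcon
  have hmem : ∀ p ∈ N.primeFactorsList, z < (p : ℝ) := fun p hp =>
    h p (Nat.prime_of_mem_primeFactorsList hp) (Nat.dvd_of_mem_primeFactorsList hp)
  have h2 := h1 l (fun p hp => (hmem p (by rw [hal]; exact List.mem_cons_of_mem _ hp)).le)
  have h3 := hmem a (by rw [hal]; exact List.mem_cons_self)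
  have h4 : (N : ℝ) = a * ((l.prod : ℕ) : ℝ) := by rw [← hprod]; push_cast; ring
  have h5 : z ^ r ≤ z ^ l.length := pow_le_pow_right₀ hz1 (by omega)
  have h6 : z ^ (r + 1) < N := by
    rw [h4, pow_succ, mul_comm]
    have h7 : 0 < z ^ r := by positivity
    calc z * z ^ r < a * z ^ r := by gcongr
      _ ≤ a * ((l.prod : ℕ) : ℝ) := by
        apply mul_le_mul_of_nonneg_left (h5.trans h2) (Nat.cast_nonneg _)
  linarith

/-- few distinct primes -/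
lemma pow_card_le (F : Finset ℕ) (M : ℕ) (hM : M ≠ 0) (hF : ∀ p ∈ F, p.Prime ∧ p ∣ M) (z : ℝ)
    (hz : 0 ≤ z) (hzF : ∀ p ∈ F, z ≤ (p : ℝ)) : z ^ F.card ≤ M := by
  have h1 : ∏ p ∈ F, p ∣ M := Finset.prod_primes_dvd _ (fun p hp => (hF p hp).1.prime)
    (fun p hp => (hF p hp).2)
  have h2 : ∏ p ∈ F, p ≤ M := Nat.le_of_dvd (Nat.pos_of_ne_zero hM) h1
  calc z ^ F.card = ∏ _p ∈ F, z := by rw [Finset.prod_const]
    _ ≤ ∏ p ∈ F, (p : ℝ) := Finset.prod_le_prod (fun _ _ => hz) hzF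
    _ = ((∏ p ∈ F, p : ℕ) : ℝ) := by push_cast; rfl
    _ ≤ M := by exact_mod_cast h2

lemma card_le_log (F : Finset ℕ) (M : ℕ) (hM : M ≠ 0) (hF : ∀ p ∈ F, p.Prime ∧ p ∣ M) :
    (F.card : ℝ) * Real.log 2 ≤ Real.log M := by
  have h := pow_card_le F M hM hF 2 (by norm_num) (fun p hp => by
    exact_mod_cast (hF p hp).1.two_le)
  have h2 := Real.log_le_log (by positivity) h
  rwa [Real.log_pow] at h2

/-- bounds for the sieving level -/
lemma level_low (r : ℕ) (hr : 2 ≤ r) (X : ℕ) (hX : 1 ≤ X) (h2 : 2 ≤ (X : ℝ) ^ (1 / (2 * r : ℝ))) :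
    (X : ℝ) ^ (1 / (2 * r : ℝ)) ≤ ⌊(X : ℝ) ^ (1 / (r : ℝ))⌋₊ ∧
    Real.log X / (2 * r) ≤ Real.log ⌊(X : ℝ) ^ (1 / (r : ℝ))⌋₊ ∧
    Real.log ⌊(X : ℝ) ^ (1 / (r : ℝ))⌋₊ ≤ Real.log X ∧ 2 ≤ ⌊(X : ℝ) ^ (1 / (r : ℝ))⌋₊ := by
  have hXpos : (0 : ℝ) < X := by exact_mod_cast hX
  have hX1 : (1 : ℝ) ≤ X := by exact_mod_cast hX
  have hrr : (2 : ℝ) ≤ r := by exact_mod_cast hr
  have hrpos : (0 : ℝ) < r := by linarith
  have hsplit : (X : ℝ) ^ (1 / (r : ℝ)) = (X : ℝ) ^ (1 / (2 * r : ℝ)) * (X : ℝ) ^ (1 / (2 * r : ℝ)) := by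
    rw [← Real.rpow_add hXpos]
    congr 1
    field_simp
    norm_num
  have hylow : (X : ℝ) ^ (1 / (2 * r : ℝ)) ≤ ⌊(X : ℝ) ^ (1 / (r : ℝ))⌋₊ := by
    have h1 := Nat.lt_floor_add_one ((X : ℝ) ^ (1 / (r : ℝ)))
    rw [hsplit] at h1 ⊢
    nlinarith
  have hypos : (0 : ℝ) < ⌊(X : ℝ) ^ (1 / (r : ℝ))⌋₊ := by linarith
  refine ⟨hylow, ?_, ?_, ?_⟩
  · have h2 : Real.log ((X : ℝ) ^ (1 / (2 * r : ℝ))) ≤ Real.log ⌊(X : ℝ) ^ (1 / (r : ℝ))⌋₊ :=
      Real.log_le_log (by positivity) hylow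
    rw [Real.log_rpow hXpos] at h2
    calc Real.log X / (2 * r) = 1 / (2 * r) * Real.log X := by ring
      _ ≤ _ := h2
  · apply Real.log_le_log hypos
    refine (Nat.floor_le (by positivity)).trans ?_
    calc (X : ℝ) ^ (1 / (r : ℝ)) ≤ (X : ℝ) ^ (1 : ℝ) := by
          apply Real.rpow_le_rpow_of_exponent_le hX1
          rw [div_le_one hrpos]; linarith
      _ = X := Real.rpow_one _
  · have : (2 : ℝ) ≤ ⌊(X : ℝ) ^ (1 / (r : ℝ))⌋₊ := h2.trans hylow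
    exact_mod_cast this

lemma logpow_le (g : ℕ) (M : ℝ) (hM : 0 < M) : ∀ᶠ X : ℕ in atTop, M * Real.log X ^ g ≤ (X : ℝ) := by
  have h := ((isLittleO_log_rpow_rpow_atTop (g : ℝ) (by norm_num : (0 : ℝ) < 1)).comp_tendsto
    tendsto_natCast_atTop_atTop).bound (by positivity : (0 : ℝ) < 1 / M)
  filter_upwards [h, eventually_ge_atTop 1] with X h2 hX1
  have hX1' : (1 : ℝ) ≤ X := by exact_mod_cast hX1
  have hlog : 0 ≤ Real.log (X : ℝ) := Real.log_nonneg hX1'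
  simp only [Function.comp_def] at h2
  rw [Real.norm_of_nonneg (by positivity), Real.norm_of_nonneg (by positivity), Real.rpow_natCast,
    Real.rpow_one] at h2
  rw [div_mul_eq_mul_div, one_mul, le_div_iff₀ hM] at h2
  linarith [mul_comm M (Real.log (X : ℝ) ^ g)]

end Pool.Agent.W123.RU
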