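import Pool.Agent.W123.RP.Avg

set_option autoImplicit false

/-!
# The average of the singular series over short shifts, uniform version
-/

namespace Pool.Agent.W123.RU

open Finset Pool.Agent.H373R2.T7 Pool.Agent.W123.RP

open Classical in
/-- data for the collisions: `Co p h` -/
structure Coll (Co : ℕ → ℕ → Prop) (p0 D : ℕ) : Prop where
  per : ∀ p n : ℕ, Co p n ↔ Co p (n % p)
  few : ∀ p : ℕ, p.Prime → p0 < p → ((range p).filter (fun r => Co p r)).card ≤ D

open Classical in
/-- Average of the products over prime factors of `R h`, `h ≤ T`. -/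
theorem avg (K D D' p0 : ℕ) : ∃ C : ℝ, 1 ≤ C ∧ ∃ T0 : ℕ, 2 ≤ T0 ∧ ∀ T : ℕ, T0 ≤ T → ∀ Co : ℕ → ℕ → Prop,
    Coll Co p0 D → ∀ y : ℕ, ∀ E : Finset ℕ, E ⊆ Icc 1 T →
    (∀ h ∈ E, ((pz y).filter (fun p : ℕ => T < p ∧ Co p h)).card ≤ D' * T) →
    ∑ h ∈ E, ∏ p ∈ (pz y).filter (fun p : ℕ => p0 < p ∧ Co p h), (1 + (K : ℝ) / p) ≤
      C * T := by
  obtain ⟨C1, hC1, B, T1, hT1, hlogp⟩ := prod_one_add_le (K * D)
  obtain ⟨C2, hC2, hsq⟩ := prod_sq_le (K * D)
  have hlo : ∃ T2 : ℕ, ∀ T : ℕ, T2 ≤ T → Real.log (T : ℝ) ^ B ≤ T := by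
    have h := ((isLittleO_log_rpow_rpow_atTop (B : ℝ) (by norm_num : (0 : ℝ) < 1)).comp_tendsto
      tendsto_natCast_atTop_atTop).bound (by norm_num : (0 : ℝ) < 1)
    obtain ⟨T2, hT2⟩ := Filter.eventually_atTop.1 h
    refine ⟨max T2 1, fun T hT => ?_⟩
    have h2 := hT2 T ((le_max_left _ _).trans hT)
    have hT1 : (1 : ℝ) ≤ T := by exact_mod_cast (le_max_right _ _).trans hT
    have hlog : 0 ≤ Real.log (T : ℝ) := Real.log_nonneg hT1
    simp only [Function.comp_def] at h2
    rw [Real.norm_of_nonneg (by positivity), Real.norm_of_nonneg (by positivity), Real.rpow_natCast,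
      Real.rpow_one, one_mul] at h2
    exact h2
  obtain ⟨T2, hT2⟩ := hlo
  refine ⟨Real.exp (K * D') * (C2 + C1), ?_, max (max T1 T2) (p0 + 2), by omega, ?_⟩
  · have hK0 : (0 : ℝ) ≤ K := Nat.cast_nonneg K
    have : (1 : ℝ) ≤ Real.exp (K * D') := Real.one_le_exp (by positivity)
    nlinarith
  intro T hT Co hR y E hE hE2
  have hTT1 : T1 ≤ T := by omega
  have hTT2 : T2 ≤ T := by omega
  have hT2' : 2 ≤ T := by omega
  have hTr : (2 : ℝ) ≤ T := by exact_mod_cast hT2'
  set PS : Finset ℕ := (pz T).filter (fun p => p0 < p) with hPS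
  have hPSp : ∀ p ∈ PS, p.Prime ∧ p0 < p := fun p hp => by
    rw [hPS, mem_filter] at hp
    exact ⟨(mem_pz.1 hp.1).2, hp.2⟩
  -- step 1: split off the primes above T
  have hstep : ∀ h ∈ E, ∏ p ∈ (pz y).filter (fun p : ℕ => p0 < p ∧ Co p h), (1 + (K : ℝ) / p) ≤
      Real.exp (K * D') * ∏ p ∈ PS.filter (fun p : ℕ => Co p h), (1 + (K : ℝ) / p) := by
    intro h hh
    set F := (pz y).filter (fun p : ℕ => p0 < p ∧ Co p h) with hF
    have hsplit := Finset.prod_filter_mul_prod_filter_not F (fun p => p ≤ T) (fun p => (1 + (K : ℝ) / p))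
    rw [← hsplit, mul_comm]
    apply mul_le_mul
    · -- large primes
      set FL := F.filter (fun p => ¬ p ≤ T) with hFL
      have hcard : FL.card ≤ D' * T := by
        refine le_trans (Finset.card_le_card ?_) (hE2 h hh)
        intro p hp
        rw [hFL, mem_filter, hF, mem_filter] at hp
        rw [mem_filter]
        exact ⟨hp.1.1, not_le.1 hp.2, hp.1.2.2⟩
      have hT0 : (0 : ℝ) < T := by linarith
      calc ∏ p ∈ FL, (1 + (K : ℝ) / p) ≤ ∏ _p ∈ FL, Real.exp ((K : ℝ) / T) := by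
            apply Finset.prod_le_prod
            · intro p _; positivity
            · intro p hp
              rw [hFL, mem_filter] at hp
              have h1 : (T : ℝ) ≤ p := by exact_mod_cast (by omega : T ≤ p)
              have h2 : (K : ℝ) / p ≤ K / T := by gcongr
              have h3 := Real.add_one_le_exp ((K : ℝ) / T)
              linarith
        _ = Real.exp ((K : ℝ) / T * FL.card) := by
            rw [Finset.prod_const, ← Real.exp_nat_mul]
            congr 1
            ring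
        _ ≤ Real.exp (K * D') := by
            apply Real.exp_le_exp.2
            have h1 : (FL.card : ℝ) ≤ D' * T := by exact_mod_cast hcard
            calc (K : ℝ) / T * FL.card ≤ K / T * (D' * T) := by gcongr
              _ = K * D' := by field_simp
    · apply Finset.prod_le_prod_of_subset_of_one_le
      · intro p hp
        rw [mem_filter, hF, mem_filter, mem_pz] at hp
        rw [mem_filter, hPS, mem_filter, mem_pz]
        exact ⟨⟨⟨hp.2, hp.1.1.2⟩, hp.1.2.1⟩, hp.1.2.2⟩
      · intro p _; positivity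
      · intro p _ _
        have : 0 ≤ (K : ℝ) / p := by positivity
        linarith
    · exact Finset.prod_nonneg fun p _ => by positivity
    · positivity
  -- step 2: expand
  have hexp : ∀ h, ∏ p ∈ PS.filter (fun p : ℕ => Co p h), (1 + (K : ℝ) / p) =
      ∑ S ∈ PS.powerset, if ∀ p ∈ S, Co p h then ∏ p ∈ S, ((K : ℝ) / p) else 0 := by
    intro h
    have e1 : ∏ p ∈ PS.filter (fun p : ℕ => Co p h), (1 + (K : ℝ) / p) =
        ∏ p ∈ PS, ((if Co p h then (K : ℝ) / (p : ℝ) else 0) + 1) := by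
      rw [Finset.prod_filter]
      apply Finset.prod_congr rfl
      intro p _
      split_ifs
      · ring
      · ring
    rw [e1, Finset.prod_add_one]
    apply Finset.sum_congr rfl
    intro S _
    by_cases hS : ∀ p ∈ S, Co p h
    · rw [if_pos hS]
      apply Finset.prod_congr rfl
      intro p hp
      rw [if_pos (hS p hp)]
    · rw [if_neg hS]
      push Not at hS
      obtain ⟨p, hp, hpn⟩ := hS
      exact Finset.prod_eq_zero hp (if_neg hpn)
  -- step 3: count
  have hcount : ∀ S ∈ PS.powerset, ((E.filter (fun h => ∀ p ∈ S, Co p h)).card : ℝ) ≤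
      T * ∏ p ∈ S, ((D : ℝ) / p) + ∏ _p ∈ S, (D : ℝ) := by
    intro S hS
    have hSP : ∀ p ∈ S, p.Prime ∧ p0 < p := fun p hp => hPSp p (Finset.mem_powerset.1 hS hp)
    have hc := count_sys (fun p a => Co p a) T S (fun p hp => (hSP p hp).1) 1 le_rfl
      (fun p hp hd => (hSP p hp).1.one_lt.ne' (Nat.dvd_one.1 hd)) 0
    have hsub : E.filter (fun h => ∀ p ∈ S, Co p h) ⊆
        (Icc 1 T).filter (fun n => n ≡ 0 [MOD 1] ∧ ∀ p ∈ S, Co p (n % p)) := by
      intro n hn
      rw [mem_filter] at hn ⊢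
      exact ⟨hE hn.1, Nat.modEq_one, fun p hp => (hR.per p n).1 (hn.2 p hp)⟩
    have h1 : ((E.filter (fun h => ∀ p ∈ S, Co p h)).card : ℝ) ≤
        (((Icc 1 T).filter (fun n => n ≡ 0 [MOD 1] ∧ ∀ p ∈ S, Co p (n % p))).card : ℝ) := by
      exact_mod_cast Finset.card_le_card hsub
    have h2 := (abs_le.1 hc).2
    have h3 : (T : ℝ) / ((1 : ℕ) : ℝ) * ∏ p ∈ S, ((((range p).filter (fun a => Co p a)).card : ℝ) / p) ≤
        T * ∏ p ∈ S, ((D : ℝ) / p) := by
      rw [Nat.cast_one, div_one]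
      apply mul_le_mul_of_nonneg_left _ (Nat.cast_nonneg _)
      apply Finset.prod_le_prod
      · intro p _; positivity
      · intro p hp
        apply div_le_div_of_nonneg_right _ (Nat.cast_nonneg _)
        exact_mod_cast hR.few p (hSP p hp).1 (hSP p hp).2
    have h4 : ∏ p ∈ S, (((range p).filter (fun a => Co p a)).card : ℝ) ≤ ∏ _p ∈ S, (D : ℝ) := by
      apply Finset.prod_le_prod
      · intro p _; positivity
      · intro p hp
        exact_mod_cast hR.few p (hSP p hp).1 (hSP p hp).2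
    linarith
  -- step 4: sum
  have hPST : PS ⊆ pz T := Finset.filter_subset _ _
  have hfin : ∑ h ∈ E, ∏ p ∈ PS.filter (fun p : ℕ => Co p h), (1 + (K : ℝ) / p) ≤
      (C2 + C1) * T := by
    simp_rw [hexp]
    rw [Finset.sum_comm]
    have e2 : ∀ S ∈ PS.powerset, ∑ h ∈ E, (if ∀ p ∈ S, Co p h then ∏ p ∈ S, ((K : ℝ) / p) else 0) ≤
        T * ∏ p ∈ S, (((K * D : ℕ) : ℝ) / (p : ℝ) ^ 2) + ∏ p ∈ S, (((K * D : ℕ) : ℝ) / p) := by
      intro S hS
      rw [← Finset.sum_filter, Finset.sum_const, nsmul_eq_mul]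
      have h5 := mul_le_mul_of_nonneg_right (hcount S hS)
        (Finset.prod_nonneg (s := S) (f := fun p : ℕ => (K : ℝ) / p) fun p _ => by positivity)
      refine h5.trans (le_of_eq ?_)
      rw [add_mul, mul_assoc, ← Finset.prod_mul_distrib, ← Finset.prod_mul_distrib]
      congr 1
      · congr 1
        apply Finset.prod_congr rfl
        intro p _
        push_cast
        ring
      · apply Finset.prod_congr rfl
        intro p _
        push_cast
        ring
    refine (Finset.sum_le_sum e2).trans ?_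
    rw [Finset.sum_add_distrib, ← Finset.mul_sum, ← Finset.prod_add_one, ← Finset.prod_add_one]
    have e3 : ∏ p ∈ PS, (((K * D : ℕ) : ℝ) / (p : ℝ) ^ 2 + 1) ≤ C2 := by
      refine le_trans ?_ (hsq T)
      calc ∏ p ∈ PS, (((K * D : ℕ) : ℝ) / (p : ℝ) ^ 2 + 1) =
          ∏ p ∈ PS, (1 + ((K * D : ℕ) : ℝ) / (p : ℝ) ^ 2) :=
            Finset.prod_congr rfl fun p _ => add_comm _ _
        _ ≤ _ := by
          apply Finset.prod_le_prod_of_subset_of_one_le hPST
          · intro p _; positivity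
          · intro p _ _
            have : 0 ≤ ((K * D : ℕ) : ℝ) / (p : ℝ) ^ 2 := by positivity
            linarith
    have e4 : ∏ p ∈ PS, (((K * D : ℕ) : ℝ) / p + 1) ≤ C1 * T := by
      calc ∏ p ∈ PS, (((K * D : ℕ) : ℝ) / p + 1) =
          ∏ p ∈ PS, (1 + ((K * D : ℕ) : ℝ) / p) :=
            Finset.prod_congr rfl fun p _ => add_comm _ _
        _ ≤ ∏ p ∈ pz T, (1 + ((K * D : ℕ) : ℝ) / p) := by
          apply Finset.prod_le_prod_of_subset_of_one_le hPST
          · intro p _; positivity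
          · intro p _ _
            have : 0 ≤ ((K * D : ℕ) : ℝ) / p := by positivity
            linarith
        _ ≤ C1 * Real.log T ^ B := hlogp T hTT1
        _ ≤ C1 * T := mul_le_mul_of_nonneg_left (hT2 T hTT2) hC1.le
    have hT0 : (0 : ℝ) ≤ T := Nat.cast_nonneg T
    nlinarith [mul_le_mul_of_nonneg_left e3 hT0]
  calc ∑ h ∈ E, ∏ p ∈ (pz y).filter (fun p : ℕ => p0 < p ∧ Co p h), (1 + (K : ℝ) / p) ≤
      ∑ h ∈ E, Real.exp (K * D') * ∏ p ∈ PS.filter (fun p : ℕ => Co p h), (1 + (K : ℝ) / p) :=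
        Finset.sum_le_sum hstep
    _ = Real.exp (K * D') * ∑ h ∈ E, ∏ p ∈ PS.filter (fun p : ℕ => Co p h), (1 + (K : ℝ) / p) := by
        rw [Finset.mul_sum]
    _ ≤ Real.exp (K * D') * ((C2 + C1) * T) := mul_le_mul_of_nonneg_left hfin (by positivity)
    _ = _ := by ring

end Pool.Agent.W123.RU
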