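import Pool.Agent.W123.RU.PolyV

set_option autoImplicit false

/-!
# Tuples of shifts, uniformly
-/

namespace Pool.Agent.W123.RU.Tup

open Finset Filter Pool.Agent.H373R2.T7 Pool.Agent.W123.RP Pool.Agent.W123.RU

def Q {k : ℕ} (a : Fin k → ℕ) (p m : ℕ) : Prop := ∃ i, p ∣ m + a i

lemma per1 (s p n : ℕ) : p ∣ n + s ↔ p ∣ n % p + s := by
  have : n % p + s ≡ n + s [MOD p] := Nat.ModEq.add_right s (Nat.mod_modEq n p)
  exact (this.dvd_iff dvd_rfl).symm

open Classical in
lemma card1 (s p : ℕ) (hp : p.Prime) : ((range p).filter (fun r => p ∣ r + s)).card = 1 := by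
  have h := linear_card p hp 1 s (by
    intro h
    have h5 : p ∣ 1 := by exact_mod_cast h
    exact hp.one_lt.ne' (Nat.dvd_one.1 h5))
  rw [← h]
  congr 1
  ext r
  rw [mem_filter, mem_filter]
  have e : (p : ℤ) ∣ 1 * r + s ↔ p ∣ r + s := by
    rw [one_mul]
    exact_mod_cast Iff.rfl
  rw [e]

open Classical in
lemma perB {k : ℕ} (a : Fin k → ℕ) : PerB (Q a) k := by
  constructor
  · intro p n
    unfold Q
    exact exists_congr fun i => per1 (a i) p n
  · intro p hp
    have h1 : (range p).filter (fun r => Q a p r) ⊆ Finset.univ.biUnion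
        (fun i => (range p).filter (fun r => p ∣ r + a i)) := by
      intro r hr
      rw [mem_filter] at hr
      obtain ⟨h1, i, hi⟩ := hr
      rw [mem_biUnion]
      exact ⟨i, mem_univ _, mem_filter.2 ⟨h1, hi⟩⟩
    have h2 := (card_le_card h1).trans Finset.card_biUnion_le
    have h3 : ∑ i : Fin k, ((range p).filter (fun r => p ∣ r + a i)).card = k := by
      rw [Finset.sum_congr rfl (fun i _ => card1 (a i) p hp)]
      simp
    rw [h3] at h2
    refine le_trans (le_of_eq ?_) h2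
    unfold nuB
    congr

open Classical in
lemma one_le_nuB {k : ℕ} (hk : 1 ≤ k) (a : Fin k → ℕ) (p : ℕ) (hp : p.Prime) : 1 ≤ nuB (Q a) p := by
  have h := card1 (a ⟨0, hk⟩) p hp
  have h1 : (range p).filter (fun r => p ∣ r + a ⟨0, hk⟩) ⊆ (range p).filter (fun r => Q a p r) := by
    intro r hr
    rw [mem_filter] at hr ⊢
    exact ⟨hr.1, ⟨0, hk⟩, hr.2⟩
  have h2 := card_le_card h1
  rw [h] at h2
  refine h2.trans (le_of_eq ?_)
  unfold nuB
  congr

/-- admissible -/
def Adm {k : ℕ} (a : Fin k → ℕ) : Prop := ∀ p : ℕ, p.Prime → ∃ m : ℕ, ∀ i, ¬ p ∣ m + a i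

open Classical in
lemma adm {k : ℕ} (a : Fin k → ℕ) (ha : Adm a) (p : ℕ) (hp : p.Prime) : nuB (Q a) p < p := by
  obtain ⟨m, hm⟩ := ha p hp
  have h1 : (range p).filter (fun r => Q a p r) ⊂ range p := by
    rw [Finset.filter_ssubset]
    refine ⟨m % p, mem_range.2 (Nat.mod_lt _ hp.pos), ?_⟩
    rintro ⟨i, hi⟩
    exact hm i ((per1 (a i) p m).2 hi)
  have h2 := card_lt_card h1
  rw [card_range] at h2
  refine lt_of_le_of_lt (le_of_eq ?_) h2
  unfold nuB
  congr

lemma sdata {k : ℕ} (a : Fin k → ℕ) (ha : Adm a) :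
    Sdata (Q a) (CoG (Q a)) k (2 * k) (k ^ 2) :=
  ⟨perB a, adm a ha, le_rfl, fun _ _ _ _ m h1 h2 => ⟨m, h1, h2⟩, coll_gen (Q a) k (perB a) (2 * k)⟩

/-- exceptional shifts -/
def E0 {k : ℕ} (a : Fin k → ℕ) : Finset ℕ :=
  (Finset.univ : Finset (Fin k × Fin k)).image (fun ij => a ij.1 - a ij.2)

lemma E0_card {k : ℕ} (a : Fin k → ℕ) : (E0 a).card ≤ k ^ 2 := by
  refine (Finset.card_image_le).trans ?_
  rw [Finset.card_univ, Fintype.card_prod, Fintype.card_fin, sq]

open Classical in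
/-- few large primes divide a collision -/
lemma large {k : ℕ} (a : Fin k → ℕ) (Z : ℕ) (ha : ∀ i, a i ≤ Z) (T : ℕ) (hTZ : T ≤ Z) (y h : ℕ)
    (hh : h ∈ Icc 1 T) (hE : h ∉ E0 a) :
    ((((pz y).filter (fun p : ℕ => T < p ∧ CoG (Q a) p h)).card : ℕ) : ℝ) * Real.log 2 ≤
      (k : ℝ) ^ 2 * Real.log (2 * Z) := by
  rw [mem_Icc] at hh
  have hZ1 : 1 ≤ Z := by omega
  have hZr : (1 : ℝ) ≤ Z := by exact_mod_cast hZ1
  -- the numbers `|h + a j - a i|`
  have key : ∀ i j : Fin k, ((h : ℤ) + a j - a i).natAbs ≠ 0 ∧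
      ((((h : ℤ) + a j - a i).natAbs : ℕ) : ℝ) ≤ 2 * Z := by
    intro i j
    constructor
    · intro h0
      rw [Int.natAbs_eq_zero] at h0
      apply hE
      unfold E0
      rw [mem_image]
      refine ⟨(i, j), mem_univ _, ?_⟩
      simp only
      omega
    · have h1 : ((h : ℤ) + a j - a i).natAbs ≤ 2 * Z := by
        have h2 := ha i
        have h3 := ha j
        omega
      exact_mod_cast h1
  have hsub : (pz y).filter (fun p : ℕ => T < p ∧ CoG (Q a) p h) ⊆
      (Finset.univ : Finset (Fin k × Fin k)).biUnion (fun ij => (pz y).filter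
        (fun p : ℕ => p ∣ ((h : ℤ) + a ij.2 - a ij.1).natAbs)) := by
    intro p hp
    rw [mem_filter] at hp
    obtain ⟨hp1, hp2, m, ⟨i, hi⟩, ⟨j, hj⟩⟩ := hp
    rw [mem_biUnion]
    refine ⟨(i, j), mem_univ _, ?_⟩
    rw [mem_filter]
    refine ⟨hp1, ?_⟩
    simp only
    have h1 : (p : ℤ) ∣ (m : ℤ) + a i := by exact_mod_cast hi
    have h2 : (p : ℤ) ∣ (m : ℤ) + h + a j := by exact_mod_cast hj
    have h3 := dvd_sub h2 h1
    have e : (m : ℤ) + h + a j - (m + a i) = h + a j - a i := by ring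
    rw [e] at h3
    exact Int.natCast_dvd.1 h3
  have h1 := (card_le_card hsub).trans Finset.card_biUnion_le
  have h2 : (((pz y).filter (fun p : ℕ => T < p ∧ CoG (Q a) p h)).card : ℝ) ≤
      ∑ ij : Fin k × Fin k, (((pz y).filter
        (fun p : ℕ => p ∣ ((h : ℤ) + a ij.2 - a ij.1).natAbs)).card : ℝ) := by exact_mod_cast h1
  have hl2 : 0 < Real.log 2 := Real.log_pos (by norm_num)
  refine (mul_le_mul_of_nonneg_right h2 hl2.le).trans ?_
  rw [Finset.sum_mul]
  have h3 : ∀ ij ∈ (Finset.univ : Finset (Fin k × Fin k)), (((pz y).filter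
        (fun p : ℕ => p ∣ ((h : ℤ) + a ij.2 - a ij.1).natAbs)).card : ℝ) * Real.log 2 ≤
        Real.log (2 * Z) := by
    intro ij _
    obtain ⟨k1, k2⟩ := key ij.1 ij.2
    have h4 := card_le_log ((pz y).filter (fun p : ℕ => p ∣ ((h : ℤ) + a ij.2 - a ij.1).natAbs))
      ((h : ℤ) + a ij.2 - a ij.1).natAbs k1 (fun p hp => by
        rw [mem_filter] at hp; exact ⟨(mem_pz.1 hp.1).2, hp.2⟩)
    refine h4.trans (Real.log_le_log ?_ k2)
    exact_mod_cast Nat.pos_of_ne_zero k1
  refine (Finset.sum_le_card_nsmul _ _ _ h3).trans (le_of_eq ?_)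
  rw [Finset.card_univ, Fintype.card_prod, Fintype.card_fin, nsmul_eq_mul]
  push_cast
  ring

/-- upper bound for the sieve product: at least one class per prime -/
lemma V_up {k : ℕ} (hk : 1 ≤ k) : ∃ C : ℝ, 0 < C ∧ ∀ y : ℕ, 2 ≤ y → ∀ a : Fin k → ℕ,
    Vq (Q a) y ≤ C / Real.log y := by
  obtain ⟨c, C, hc, hC, hV⟩ := Vz_bounds
  refine ⟨C, hC, ?_⟩
  intro y hy a
  refine le_trans ?_ (hV y hy).2
  apply Finset.prod_le_prod
  · intro p hp
    exact one_sub_nonneg _ p (mem_pz.1 hp).2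
  · intro p hp
    have hpp := (mem_pz.1 hp).2
    have : (1 : ℝ) ≤ nuB (Q a) p := by exact_mod_cast one_le_nuB hk a p hpp
    gcongr

/-- comparison of the sieve products at two levels -/
lemma V_ratio (k : ℕ) : ∃ c0 : ℝ, 0 < c0 ∧ ∀ y x : ℕ, 2 ≤ y → y ≤ x → 2 * k ≤ y →
    ∀ a : Fin k → ℕ, Adm a →
    c0 * (Real.log y / Real.log x) ^ (2 * k) * Vq (Q a) y ≤ Vq (Q a) x := by
  obtain ⟨c, C, hc, hC, hV⟩ := Vz_bounds
  refine ⟨(c / C) ^ (2 * k), by positivity, ?_⟩
  intro y x hy hyx hky a ha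
  have hly : 0 < Real.log y := Real.log_pos (by exact_mod_cast (by omega : 1 < y))
  have hlx : 0 < Real.log x := Real.log_pos (by exact_mod_cast (by omega : 1 < x))
  have hsub : pz y ⊆ pz x := by
    intro p hp
    rw [mem_pz] at hp ⊢
    exact ⟨hp.1.trans hyx, hp.2⟩
  have hVy0 : 0 ≤ Vq (Q a) y := Finset.prod_nonneg fun p hp => one_sub_nonneg _ p (mem_pz.1 hp).2
  have hVq : Vq (Q a) x = (∏ p ∈ pz x \ pz y, (1 - (nuB (Q a) p : ℝ) / p)) * Vq (Q a) y :=
    (Finset.prod_sdiff hsub).symm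
  have hVz : Vz x = (∏ p ∈ pz x \ pz y, (1 - 1 / (p : ℝ))) * Vz y := (Finset.prod_sdiff hsub).symm
  have hVzy : 0 < Vz y := lt_of_lt_of_le (by positivity) (hV y hy).1
  have hratio : c / C * (Real.log y / Real.log x) ≤ ∏ p ∈ pz x \ pz y, (1 - 1 / (p : ℝ)) := by
    have h1 : (∏ p ∈ pz x \ pz y, (1 - 1 / (p : ℝ))) = Vz x / Vz y := by
      rw [hVz]; field_simp
    rw [h1, le_div_iff₀ hVzy]
    calc c / C * (Real.log y / Real.log x) * Vz y ≤
        c / C * (Real.log y / Real.log x) * (C / Real.log y) := by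
          gcongr
          exact (hV y hy).2
      _ = c / Real.log x := by field_simp
      _ ≤ Vz x := (hV x (hy.trans hyx)).1
  rw [hVq]
  apply mul_le_mul_of_nonneg_right _ hVy0
  calc (c / C) ^ (2 * k) * (Real.log y / Real.log x) ^ (2 * k) =
      (c / C * (Real.log y / Real.log x)) ^ (2 * k) := by rw [mul_pow]
    _ ≤ (∏ p ∈ pz x \ pz y, (1 - 1 / (p : ℝ))) ^ (2 * k) := pow_le_pow_left₀ (by positivity) hratio _
    _ = ∏ p ∈ pz x \ pz y, (1 - 1 / (p : ℝ)) ^ (2 * k) := (Finset.prod_pow _ _ _).symm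
    _ ≤ ∏ p ∈ pz x \ pz y, (1 - (nuB (Q a) p : ℝ) / p) := by
      apply Finset.prod_le_prod
      · intro p hp
        have hpp := (mem_pz.1 (mem_sdiff.1 hp).1).2
        have : (1 : ℝ) ≤ p := by exact_mod_cast hpp.one_lt.le
        have : 0 ≤ 1 - 1 / (p : ℝ) := by
          rw [sub_nonneg, div_le_one (by linarith)]; exact this
        positivity
      · intro p hp
        obtain ⟨hpx, hpy⟩ := mem_sdiff.1 hp
        rw [mem_pz] at hpx hpy
        have hpp := hpx.2
        have hyp : y < p := by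
          by_contra hcon
          exact hpy ⟨not_lt.1 hcon, hpp⟩
        have hp0 : (0 : ℝ) < p := by exact_mod_cast hpp.pos
        have hp1 : (1 : ℝ) ≤ p := by exact_mod_cast hpp.one_lt.le
        have hfew : (nuB (Q a) p : ℝ) ≤ k := by exact_mod_cast (perB a).few p hpp
        have h2k : 2 * (k : ℝ) ≤ p := by
          have : 2 * k ≤ p := by omega
          exact_mod_cast this
        set t : ℝ := 2 * (k : ℝ) / p with ht
        have ht0 : 0 ≤ t := by positivity
        have ht1 : t ≤ 1 := by rw [ht, div_le_one hp0]; exact h2k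
        have h3 : (1 - 1 / (p : ℝ)) ^ (2 * k) ≤ Real.exp (-t) := by
          have h4 : 1 - 1 / (p : ℝ) ≤ Real.exp (-(1 / (p : ℝ))) := by
            have := Real.add_one_le_exp (-(1 / (p : ℝ)))
            linarith
          have h5 : 0 ≤ 1 - 1 / (p : ℝ) := by
            rw [sub_nonneg, div_le_one hp0]; exact hp1
          calc (1 - 1 / (p : ℝ)) ^ (2 * k) ≤ (Real.exp (-(1 / (p : ℝ)))) ^ (2 * k) :=
                pow_le_pow_left₀ h5 h4 _
            _ = Real.exp (-t) := by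
              rw [← Real.exp_nat_mul, ht]
              congr 1
              push_cast
              ring
        have h6 : Real.exp (-t) ≤ 1 - t / 2 := by
          have h7 := Real.abs_exp_sub_one_sub_id_le (x := -t) (by rw [abs_neg, abs_of_nonneg ht0]; exact ht1)
          have h8 := (abs_le.1 h7).2
          nlinarith [Real.exp_pos (-t), Real.quadratic_le_exp_of_nonneg ht0,
            show Real.exp (-t) * Real.exp t = 1 by rw [← Real.exp_add, neg_add_cancel, Real.exp_zero]]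
        have h9 : (nuB (Q a) p : ℝ) / p ≤ t / 2 := by
          rw [ht, mul_div_assoc, mul_div_cancel_left₀ _ (two_ne_zero)]
          gcongr
        linarith

end Pool.Agent.W123.RU.Tup
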