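import Pool.Agent.W123.RU.Gold

set_option autoImplicit false

/-!
# The system of a difference of two numbers
-/

namespace Pool.Agent.W123.RU.Diff

open Finset Filter Pool.Agent.H373R2.T7 Pool.Agent.W123.RP Pool.Agent.W123.RU
  Pool.Agent.W123.RU.Gold

def QA (N p m : ℕ) : Prop := (p : ℤ) ∣ (N : ℤ) + m

def Q (N p m : ℕ) : Prop := (p : ℤ) ∣ (m : ℤ) ∨ (p : ℤ) ∣ (N : ℤ) + m

open Classical in
lemma rhoA_le (N p : ℕ) (hp : p.Prime) : rhoA (QA N) p ≤ 1 := by
  unfold rhoA
  rw [← cardp N p hp]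
  apply card_le_card
  intro r hr
  rw [mem_filter] at hr ⊢
  exact ⟨hr.1, hr.2.2⟩

lemma perA (N : ℕ) : PerA (QA N) 1 := ⟨fun p n => perp N p n, fun p hp => rhoA_le N p hp⟩

open Classical in
lemma rhoA_zero (N p : ℕ) (hd : p ∣ N) : rhoA (QA N) p = 0 := by
  unfold rhoA
  rw [Finset.card_eq_zero, Finset.filter_eq_empty_iff]
  rintro r _ ⟨h1, h2⟩
  unfold QA at h2
  have h3 : (p : ℤ) ∣ (N : ℤ) := by exact_mod_cast hd
  have h4 := (dvd_add_right h3).1 h2
  exact h1 (by exact_mod_cast h4)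

open Classical in
lemma nuB_le_two (N p : ℕ) (hp : p.Prime) : nuB (Q N) p ≤ 2 := by
  unfold nuB
  have hsub : (range p).filter (fun r => Q N p r) ⊆ (range p).filter (fun r : ℕ => (p : ℤ) ∣ (r : ℤ)) ∪
      (range p).filter (fun r : ℕ => (p : ℤ) ∣ (N : ℤ) + r) := by
    intro r hr
    rw [mem_filter] at hr
    rw [mem_union, mem_filter, mem_filter]
    rcases hr.2 with h | h
    · exact Or.inl ⟨hr.1, h⟩
    · exact Or.inr ⟨hr.1, h⟩
  have := (card_le_card hsub).trans (card_union_le _ _)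
  rw [card0 p hp, cardp N p hp] at this
  exact this

open Classical in
lemma one_le_nuB (N p : ℕ) (hp : p.Prime) : 1 ≤ nuB (Q N) p := by
  unfold nuB
  rw [← card0 p hp]
  apply card_le_card
  intro r hr
  rw [mem_filter] at hr ⊢
  exact ⟨hr.1, Or.inl hr.2⟩

open Classical in
lemma nuB_eq_two (N p : ℕ) (hp : p.Prime) (hd : ¬ p ∣ N) : nuB (Q N) p = 2 := by
  unfold nuB
  have hU : (range p).filter (fun r => Q N p r) = (range p).filter (fun r : ℕ => (p : ℤ) ∣ (r : ℤ)) ∪
      (range p).filter (fun r : ℕ => (p : ℤ) ∣ (N : ℤ) + r) := by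
    ext r
    rw [mem_union, mem_filter, mem_filter, mem_filter]
    unfold Q
    tauto
  have hD : Disjoint ((range p).filter (fun r : ℕ => (p : ℤ) ∣ (r : ℤ)))
      ((range p).filter (fun r : ℕ => (p : ℤ) ∣ (N : ℤ) + r)) := by
    rw [disjoint_left]
    intro r hr hr'
    rw [mem_filter] at hr hr'
    have := (dvd_add_left hr.2).1 hr'.2
    exact hd (by exact_mod_cast this)
  rw [hU, card_union_of_disjoint hD, card0 p hp, cardp N p hp]

open Classical in
lemma nuB_two (N : ℕ) (hN : Even N) : nuB (Q N) 2 = 1 := by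
  refine le_antisymm ?_ (one_le_nuB N 2 Nat.prime_two)
  unfold nuB
  rw [← card0 2 Nat.prime_two]
  apply card_le_card
  intro r hr
  rw [mem_filter] at hr ⊢
  refine ⟨hr.1, ?_⟩
  obtain ⟨k, hk⟩ := hN
  rcases hr.2 with h | h
  · exact h
  · have e : (N : ℤ) = k + k := by exact_mod_cast hk
    rw [e] at h
    push_cast at h ⊢
    omega

lemma sdata (N : ℕ) (hN : Even N) : Sdata (Q N) (Co N) 2 4 3 := by
  refine ⟨⟨fun p n => ?_, fun p hp => nuB_le_two N p hp⟩, ?_, by norm_num, ?_, coll N⟩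
  · unfold Q
    rw [per0 p n, perp N p n]
  · intro p hp
    rcases hp.two_le.lt_or_eq with h | h
    · have := nuB_le_two N p hp; omega
    · rw [← h, nuB_two N hN]; norm_num
  · intro p _ _ h m h1 h2
    unfold Q at h1 h2
    unfold Co
    push_cast at h2
    rcases h1 with h1 | h1 <;> rcases h2 with h2 | h2
    · left
      have := dvd_sub h2 h1
      rwa [add_sub_cancel_left] at this
    · right; left
      have := dvd_sub h2 h1
      have e : (N : ℤ) + (m + h) - m = N + h := by ring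
      rwa [e] at this
    · right; right
      have := dvd_sub h1 h2
      have e : (N : ℤ) + m - (m + h) = N - h := by ring
      rwa [e] at this
    · left
      have := dvd_sub h2 h1
      have e : (N : ℤ) + (m + h) - (N + m) = h := by ring
      rwa [e] at this

open Classical in
/-- large primes dividing a collision -/
lemma large (N h T y M : ℕ) (hN1 : 1 ≤ N) (hh : 1 ≤ h) (hhT : h ≤ T) (hhN : h ≠ N) (hNM : N ≤ M)
    (hTM : T ≤ M) :
    ((((pz y).filter (fun p : ℕ => T < p ∧ Co N p h)).card : ℕ) : ℝ) * Real.log 2 ≤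
      2 * Real.log (2 * M) := by
  have hsub : (pz y).filter (fun p : ℕ => T < p ∧ Co N p h) ⊆
      (pz y).filter (fun p : ℕ => p ∣ N + h) ∪
        (pz y).filter (fun p : ℕ => p ∣ ((N : ℤ) - h).natAbs) := by
    intro p hp
    rw [mem_filter] at hp
    rw [mem_union, mem_filter, mem_filter]
    obtain ⟨h1, h2, h3⟩ := hp
    rcases h3 with h3 | h3 | h3
    · exfalso
      have h4 : p ∣ h := by exact_mod_cast h3
      have := Nat.le_of_dvd (by omega) h4
      omega
    · exact Or.inl ⟨h1, by exact_mod_cast h3⟩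
    · exact Or.inr ⟨h1, Int.natCast_dvd.1 h3⟩
  have h1 := (card_le_card hsub).trans (card_union_le _ _)
  have h2 := card_le_log ((pz y).filter (fun p : ℕ => p ∣ N + h)) (N + h) (by omega) (fun p hp => by
    rw [mem_filter] at hp; exact ⟨(mem_pz.1 hp.1).2, hp.2⟩)
  have h3 := card_le_log ((pz y).filter (fun p : ℕ => p ∣ ((N : ℤ) - h).natAbs)) ((N : ℤ) - h).natAbs
    (by omega) (fun p hp => by
    rw [mem_filter] at hp; exact ⟨(mem_pz.1 hp.1).2, hp.2⟩)
  have hM : (1 : ℝ) ≤ M := by exact_mod_cast (by omega : 1 ≤ M)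
  have h4 : Real.log ((N + h : ℕ) : ℝ) ≤ Real.log (2 * M) := by
    apply Real.log_le_log
    · exact_mod_cast (by omega : 0 < N + h)
    · exact_mod_cast (by omega : N + h ≤ 2 * M)
  have h5 : Real.log ((((N : ℤ) - h).natAbs : ℕ) : ℝ) ≤ Real.log (2 * M) := by
    apply Real.log_le_log
    · exact_mod_cast (by omega : 0 < ((N : ℤ) - h).natAbs)
    · exact_mod_cast (by omega : ((N : ℤ) - h).natAbs ≤ 2 * M)
  have h6 : (((pz y).filter (fun p : ℕ => T < p ∧ Co N p h)).card : ℝ) ≤
      (((pz y).filter (fun p : ℕ => p ∣ N + h)).card : ℝ) +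
      (((pz y).filter (fun p : ℕ => p ∣ ((N : ℤ) - h).natAbs)).card : ℝ) := by exact_mod_cast h1
  have hl2 : 0 < Real.log 2 := Real.log_pos (by norm_num)
  have h7 := mul_le_mul_of_nonneg_right h6 hl2.le
  rw [add_mul] at h7
  linarith

/-- lower bound of the product of the shifted primes -/
lemma PI_low : ∃ c0 : ℝ, 0 < c0 ∧ ∀ y : ℕ, 2 ≤ y → ∀ N : ℕ, Even N →
    c0 / Real.log y * Sy N y ≤ ∏ p ∈ pz y, (1 - (rhoA (QA N) p : ℝ) / (p - 1 : ℝ)) := by
  obtain ⟨c0, hc0, h⟩ := prod_lower (fun p => if p = 2 then 0 else 1) 1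
    (fun p _ => by split_ifs <;> omega) (fun p hp => by
      have := hp.two_le
      split_ifs <;> omega)
  refine ⟨c0, hc0, ?_⟩
  intro y hy N hN
  have h1 := h y hy
  rw [pow_one] at h1
  have hS := one_le_Sy N y
  refine (mul_le_mul_of_nonneg_right h1 (by linarith)).trans ?_
  unfold Sy
  rw [Finset.prod_filter, ← Finset.prod_mul_distrib]
  apply Finset.prod_le_prod
  · intro p hp
    have hpp := (mem_pz.1 hp).2
    have hp2 : (2 : ℝ) ≤ p := by exact_mod_cast hpp.two_le
    apply mul_nonneg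
    · by_cases h2 : p = 2
      · simp [h2]
      · rw [if_neg h2, sub_nonneg, div_le_one (by linarith)]
        push_cast
        linarith
    · split_ifs with h3
      · exact le_trans zero_le_one (one_le_fac h3.1).1
      · norm_num
  · intro p hp
    have hpp := (mem_pz.1 hp).2
    have hp2 : (2 : ℝ) ≤ p := by exact_mod_cast hpp.two_le
    by_cases h2 : p = 2
    · subst h2
      have hd : 2 ∣ N := hN.two_dvd
      rw [rhoA_zero N 2 hd]
      simp
    · rw [if_neg h2]
      have h3 : 2 < p := by have := hpp.two_le; omega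
      have h3r : (3 : ℝ) ≤ p := by exact_mod_cast h3
      by_cases hd : p ∣ N
      · rw [if_pos ⟨h3, hd⟩, rhoA_zero N p hd]
        have : (1 - ((1 : ℕ) : ℝ) / ((p : ℝ) - 1)) * (((p : ℝ) - 1) / ((p : ℝ) - 2)) = 1 := by
          have a1 : (p : ℝ) - 1 ≠ 0 := by linarith
          have a2 : (p : ℝ) - 2 ≠ 0 := by linarith
          push_cast
          field_simp
          ring
        rw [this]
        simp
      · rw [if_neg (fun h => hd h.2), mul_one]
        have : (rhoA (QA N) p : ℝ) ≤ ((1 : ℕ) : ℝ) := by exact_mod_cast rhoA_le N p hpp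
        have h4 : (rhoA (QA N) p : ℝ) / ((p : ℝ) - 1) ≤ ((1 : ℕ) : ℝ) / ((p : ℝ) - 1) := by
          apply div_le_div_of_nonneg_right this
          linarith
        linarith

/-- upper bound of the product of the sieve -/
lemma V_up : ∃ C : ℝ, 0 < C ∧ ∀ y : ℕ, 2 ≤ y → ∀ N : ℕ, N ≠ 0 → Even N →
    Vq (Q N) y ≤ C / Real.log y ^ 2 * sing N := by
  obtain ⟨c, C, hc, hC, hV⟩ := Vz_bounds
  refine ⟨2 * C ^ 2, by positivity, ?_⟩
  intro y hy N hN hE
  have hlog : 0 < Real.log y := Real.log_pos (by exact_mod_cast (by omega : 1 < y))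
  have hVn : 0 ≤ Vz y := by
    have := (hV y hy).1
    exact le_trans (by positivity) this
  have h1 : Vq (Q N) y ≤ ∏ p ∈ pz y, (((if p = 2 then (2 : ℝ) else 1) * (1 - 1 / (p : ℝ)) ^ 2) *
      (if 2 < p ∧ p ∣ N then ((p : ℝ) - 1) / ((p : ℝ) - 2) else 1)) := by
    apply Finset.prod_le_prod
    · intro p hp
      exact one_sub_nonneg _ p (mem_pz.1 hp).2
    · intro p hp
      have hpp := (mem_pz.1 hp).2
      have hp2 : (2 : ℝ) ≤ p := by exact_mod_cast hpp.two_le
      by_cases h2 : p = 2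
      · subst h2
        rw [nuB_two N hE, if_pos rfl, if_neg (by omega)]
        norm_num
      · rw [if_neg h2, one_mul]
        have h3 : 2 < p := by have := hpp.two_le; omega
        have h3r : (3 : ℝ) ≤ p := by exact_mod_cast h3
        by_cases hd : p ∣ N
        · rw [if_pos ⟨h3, hd⟩]
          have h4 : (1 : ℝ) ≤ nuB (Q N) p := by exact_mod_cast one_le_nuB N p hpp
          have h5 : 1 - (nuB (Q N) p : ℝ) / p ≤ 1 - 1 / (p : ℝ) := by gcongr
          refine h5.trans ?_
          have a1 : (0 : ℝ) < (p : ℝ) - 2 := by linarith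
          have e1 : 1 - 1 / (p : ℝ) = ((p : ℝ) - 1) / p := by field_simp
          rw [e1, div_pow, div_mul_div_comm, div_le_div_iff₀ (by linarith) (by positivity)]
          have : 0 ≤ ((p : ℝ) - 1) * p := by nlinarith
          nlinarith
        · rw [if_neg (fun h => hd h.2), mul_one, nuB_eq_two N p hpp hd]
          push_cast
          have : (0 : ℝ) ≤ (1 / (p : ℝ)) ^ 2 := by positivity
          have e : (2 : ℝ) / p = 2 * (1 / p) := by ring
          rw [e]
          nlinarith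
  refine h1.trans ?_
  rw [Finset.prod_mul_distrib, Finset.prod_mul_distrib, Finset.prod_pow]
  have h2 : ∏ p ∈ pz y, (if p = 2 then (2 : ℝ) else 1) = 2 := by
    rw [Finset.prod_ite_eq' (pz y) 2 (fun _ => (2 : ℝ)), if_pos (mem_pz.2 ⟨hy, Nat.prime_two⟩)]
  have h2' : ∏ p ∈ pz y, (if 2 < p ∧ p ∣ N then ((p : ℝ) - 1) / ((p : ℝ) - 2) else 1) = Sy N y := by
    unfold Sy
    rw [Finset.prod_filter]
  rw [h2, h2']
  have h3 : (∏ p ∈ pz y, (1 - 1 / (p : ℝ))) ^ 2 ≤ (C / Real.log y) ^ 2 :=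
    pow_le_pow_left₀ hVn (hV y hy).2 2
  have h4 := Sy_le N y hN
  have h5 := one_le_Sy N y
  calc 2 * (∏ p ∈ pz y, (1 - 1 / (p : ℝ))) ^ 2 * Sy N y ≤ 2 * (C / Real.log y) ^ 2 * sing N := by
        have h6 : 0 ≤ Sy N y := by linarith
        apply mul_le_mul _ h4 h6 (by positivity)
        linarith
    _ = _ := by rw [div_pow]; ring

end Pool.Agent.W123.RU.Diff
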