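import Pool.Agent.W123.RU.Diff

set_option autoImplicit false

/-!
# Primes `p` with `p + h` almost prime: the sieve data, uniformly in `h`
-/

namespace Pool.Agent.W123.RU.Diff

open Finset Filter Pool.Agent.H373R2.T7 Pool.Agent.W123.RP Pool.Agent.W123.RU
  Pool.Agent.W123.RU.Gold

/-- `p` is prime and `p + h` has at most `r` prime factors (with multiplicity), all of them larger
than `x ^ (1 / r)`. -/
def AlmostPair (r h x p : ℕ) : Prop :=
  p.Prime ∧ (p + h).primeFactorsList.length ≤ r ∧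
    ∀ q : ℕ, q.Prime → q ∣ p + h → (x : ℝ) ^ (1 / (r : ℝ)) < (q : ℝ)

open Classical in
theorem data (B : ℕ) (hB : 2 ≤ B) : ∃ D' : ℕ, ∀ K1 : ℕ, ∃ R : ℕ, K1 ≤ R ∧ 2 ≤ R ∧
    ∃ cS C3 : ℝ, 0 < cS ∧ 0 < C3 ∧ ∀ L0 : ℝ, ∀ᶠ X : ℕ in atTop, ∀ N : ℕ, Even N → 1 ≤ N →
      N ≤ X ^ B → ∀ L : ℝ, L = Real.log X ^ 2 / sing N → 0 < sing N ∧ 0 < Real.log X ∧ L0 ≤ L ∧
      L ^ 8 ≤ X ∧ Vq (Q N) ⌊(X : ℝ) ^ (1 / (R : ℝ))⌋₊ ≤ C3 / L ∧
      (∀ h ∈ Icc 1 ⌊L⌋₊, h ∉ ({N} : Finset ℕ) → ((pz ⌊(X : ℝ) ^ (1 / (R : ℝ))⌋₊).filter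
        (fun p : ℕ => ⌊L⌋₊ < p ∧ Co N p h)).card ≤ D' * ⌊L⌋₊) ∧
      ∀ P : ℕ → Prop, (∀ m, P m ↔ AlmostPair R N X m) →
        (∀ m, P m → m ≤ 4 * X → ⌊(X : ℝ) ^ (1 / (R : ℝ))⌋₊ < m →
          ∀ p ∈ pz ⌊(X : ℝ) ^ (1 / (R : ℝ))⌋₊, ¬ Q N p m) ∧
        cS * X / L ≤ (co P X (2 * X) : ℝ) := by
  have hB2 : (2 : ℝ) ≤ B := by exact_mod_cast hB
  obtain ⟨Cs, hCs, hsing⟩ := sing_le
  obtain ⟨D', hD'⟩ : ∃ D' : ℕ, 8 * B ^ 2 * Cs * 4 ≤ D' := exists_nat_ge _
  refine ⟨D', ?_⟩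
  intro K1
  obtain ⟨K2, hK2, hlow⟩ := prime_lower 1 le_rfl
  obtain ⟨c0, hc0, hPI⟩ := PI_low
  obtain ⟨Cv, hCv, hV⟩ := V_up
  obtain ⟨r, hr⟩ : ∃ r : ℕ, r = max K1 K2 := ⟨_, rfl⟩
  have hr1 : K1 ≤ r := by rw [hr]; exact le_max_left _ _
  have hr2 : K2 ≤ r := by rw [hr]; exact le_max_right _ _
  have hr0 : 2 ≤ r := hK2.trans hr2
  have hrr : (2 : ℝ) ≤ r := by exact_mod_cast hr0
  have hrpos : (0 : ℝ) < r := by linarith
  obtain ⟨R, hR⟩ : ∃ R : ℕ, R = B * r := ⟨_, rfl⟩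
  have hRr : (R : ℝ) = B * r := by rw [hR]; push_cast; ring
  have hR0 : 2 ≤ R := by rw [hR]; nlinarith
  have hRpos : (0 : ℝ) < R := by rw [hRr]; positivity
  have hrR : (r : ℝ) ≤ R := by rw [hRr]; nlinarith
  set cS : ℝ := c0 / (8 * 2 ^ (B * r)) with hcS
  have hcS0 : 0 < cS := by positivity
  set C3 : ℝ := 4 * Cv * R ^ 2 with hC3
  have hC30 : 0 < C3 := by positivity
  have hK1R : K1 ≤ R := by rw [hR]; nlinarith
  refine ⟨R, hK1R, hR0, cS, C3, hcS0, hC30, ?_⟩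
  intro L0
  have hXr : Tendsto (fun X : ℕ => (X : ℝ)) atTop atTop := tendsto_natCast_atTop_atTop
  have hpow : Tendsto (fun X : ℕ => (X : ℝ) ^ (1 / (2 * R : ℝ))) atTop atTop :=
    (tendsto_rpow_atTop (by positivity)).comp hXr
  have hlogX : Tendsto (fun X : ℕ => Real.log (X : ℝ)) atTop atTop :=
    Real.tendsto_log_atTop.comp hXr
  filter_upwards [hlow r hr2 2, eventually_ge_atTop 16, hpow.eventually_ge_atTop 3,
    hlogX.eventually_ge_atTop (2 + B * Cs * (|L0| + 2) + 1 / cS),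
    logpow_le 16 1 (by norm_num)] with X hlow hX16 hX2 hXlog hlp
  intro N hE hN1 hN2 L hL
  have hX16r : (16 : ℝ) ≤ X := by exact_mod_cast hX16
  have hXpos : (0 : ℝ) < X := by linarith
  have hX1 : (1 : ℝ) ≤ X := by linarith
  have hNX2 : (N : ℝ) ≤ (X : ℝ) ^ B := by exact_mod_cast hN2
  have hNge2 : 2 ≤ N := by
    obtain ⟨k, hk⟩ := hE
    omega
  have hNpos : (0 : ℝ) < N := by exact_mod_cast (by omega : 0 < N)
  have hN0 : N ≠ 0 := by omega
  have hL0a : 0 ≤ |L0| := abs_nonneg _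
  have hCsL : 0 ≤ B * Cs * (|L0| + 2) := by positivity
  have hcS1 : 0 < 1 / cS := by positivity
  have hlX2 : 2 ≤ Real.log X := by linarith
  have hlX : 0 < Real.log X := by linarith
  have hlN2 : Real.log N ≤ B * Real.log X := by
    calc Real.log N ≤ Real.log ((X : ℝ) ^ B) := Real.log_le_log hNpos hNX2
      _ = B * Real.log X := by rw [Real.log_pow]
  have hS1 := one_le_sing N
  have hS0 : 0 < sing N := by linarith
  have hSle : sing N ≤ B * Cs * Real.log X := by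
    refine (hsing N hNge2 hE).trans ?_
    calc Cs * Real.log N ≤ Cs * (B * Real.log X) := by gcongr
      _ = _ := by ring
  have hLpos : 0 < L := by rw [hL]; positivity
  have hLlow : Real.log X ≤ B * Cs * L := by
    rw [hL]
    have h1 : B * Cs * (Real.log X ^ 2 / sing N) = B * Cs * Real.log X ^ 2 / sing N := by ring
    rw [h1, le_div_iff₀ hS0]
    nlinarith
  have hBC : 0 < B * Cs := by positivity
  have hL0' : |L0| + 2 ≤ L := by
    have h1 : B * Cs * (|L0| + 2) ≤ B * Cs * L := by linarith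
    exact le_of_mul_le_mul_left h1 hBC
  have hL2 : 2 ≤ L := by linarith
  have hLup : L ≤ Real.log X ^ 2 := by
    rw [hL, div_le_iff₀ hS0]
    have h2 : 0 ≤ Real.log X ^ 2 := by positivity
    nlinarith
  have hL8 : L ^ 8 ≤ X := by
    calc L ^ 8 ≤ (Real.log X ^ 2) ^ 8 := by gcongr
      _ = 1 * Real.log X ^ 16 := by ring
      _ ≤ X := hlp
  obtain ⟨-, hy2, hy3, hy4⟩ := level_low R hR0 X (by omega) (by linarith)
  have hX2' : 3 ≤ (X : ℝ) ^ (1 / (2 * r : ℝ)) := by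
    refine hX2.trans (Real.rpow_le_rpow_of_exponent_le hX1 ?_)
    apply one_div_le_one_div_of_le (by positivity)
    linarith
  obtain ⟨-, hz2, hz3, hz4⟩ := level_low r hr0 X (by omega) (by linarith)
  have hylog : 0 < Real.log ⌊(X : ℝ) ^ (1 / (R : ℝ))⌋₊ := lt_of_lt_of_le (by positivity) hy2
  have hzlog : 0 < Real.log ⌊(X : ℝ) ^ (1 / (r : ℝ))⌋₊ := lt_of_lt_of_le (by positivity) hz2
  have hXX : (X : ℝ) ^ (1 / (R : ℝ)) ≤ (X : ℝ) ^ (1 / (r : ℝ)) := by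
    apply Real.rpow_le_rpow_of_exponent_le hX1
    apply one_div_le_one_div_of_le hrpos
    linarith
  have hX3 : 3 ≤ (X : ℝ) ^ (1 / (r : ℝ)) := by
    have : (X : ℝ) ^ (1 / (2 * r : ℝ)) ≤ (X : ℝ) ^ (1 / (r : ℝ)) := by
      apply Real.rpow_le_rpow_of_exponent_le hX1
      apply one_div_le_one_div_of_le hrpos
      linarith
    linarith
  -- upper bound of the sieve product
  have hVy : Vq (Q N) ⌊(X : ℝ) ^ (1 / (R : ℝ))⌋₊ ≤ C3 / L := by
    refine (hV _ hy4 N hN0 hE).trans ?_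
    have h1 : (Real.log X / (2 * R)) ^ 2 ≤ Real.log ⌊(X : ℝ) ^ (1 / (R : ℝ))⌋₊ ^ 2 :=
      pow_le_pow_left₀ (by positivity) hy2 2
    calc Cv / Real.log ⌊(X : ℝ) ^ (1 / (R : ℝ))⌋₊ ^ 2 * sing N ≤
        Cv / (Real.log X / (2 * R)) ^ 2 * sing N := by gcongr
      _ = C3 / L := by rw [hC3, hL]; field_simp; ring
  -- large primes
  have hlarge : ∀ h ∈ Icc 1 ⌊L⌋₊, h ∉ ({N} : Finset ℕ) → ((pz ⌊(X : ℝ) ^ (1 / (R : ℝ))⌋₊).filter
      (fun p : ℕ => ⌊L⌋₊ < p ∧ Co N p h)).card ≤ D' * ⌊L⌋₊ := by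
    intro h hh hhN
    rw [mem_Icc] at hh
    rw [mem_singleton] at hhN
    have hLX : L ≤ X := by
      calc L = L ^ 1 := (pow_one L).symm
        _ ≤ L ^ 8 := pow_le_pow_right₀ (by linarith) (by norm_num)
        _ ≤ X := hL8
    have hTX : ⌊L⌋₊ ≤ X ^ B := by
      have h1 : ((⌊L⌋₊ : ℕ) : ℝ) ≤ X := (Nat.floor_le hLpos.le).trans hLX
      have h2 : ⌊L⌋₊ ≤ X := by exact_mod_cast h1
      exact h2.trans (Nat.le_self_pow (by omega) X)
    have h1 := large N h ⌊L⌋₊ ⌊(X : ℝ) ^ (1 / (R : ℝ))⌋₊ (X ^ B) hN1 hh.1 hh.2 hhN hN2 hTX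
    have hl2 : (1 : ℝ) / 2 ≤ Real.log 2 := by
      have := Real.log_two_gt_d9
      linarith
    have h3 : Real.log (2 * ((X ^ B : ℕ) : ℝ)) ≤ 2 * B * Real.log X := by
      push_cast
      calc Real.log (2 * (X : ℝ) ^ B) ≤ Real.log ((X : ℝ) ^ (B + 1)) := by
            apply Real.log_le_log (by positivity)
            rw [pow_succ, mul_comm]
            gcongr
            linarith
        _ = (B + 1) * Real.log X := by rw [Real.log_pow]; push_cast; ring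
        _ ≤ 2 * B * Real.log X := by
          apply mul_le_mul_of_nonneg_right _ hlX.le
          linarith
    have hc0 : (0 : ℝ) ≤ (((pz ⌊(X : ℝ) ^ (1 / (R : ℝ))⌋₊).filter
      (fun p : ℕ => ⌊L⌋₊ < p ∧ Co N p h)).card : ℝ) := Nat.cast_nonneg _
    have h4 : (((pz ⌊(X : ℝ) ^ (1 / (R : ℝ))⌋₊).filter
      (fun p : ℕ => ⌊L⌋₊ < p ∧ Co N p h)).card : ℝ) ≤ 8 * B * Real.log X := by
      have h5 := mul_le_mul_of_nonneg_left hl2 hc0
      linarith
    have h5 : L / 2 ≤ ⌊L⌋₊ := by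
      have := Nat.lt_floor_add_one L
      linarith
    have h7 : 8 * B * Real.log X ≤ D' * ⌊L⌋₊ := by
      calc 8 * B * Real.log X ≤ 8 * B * (B * Cs * L) := by gcongr
        _ = (8 * B ^ 2 * Cs * 2) * (L / 2) := by ring
        _ ≤ (D' : ℝ) * ⌊L⌋₊ := by
          apply mul_le_mul _ h5 (by positivity) (by positivity)
          have : 0 ≤ 8 * (B : ℝ) ^ 2 * Cs := by positivity
          linarith
    have h8 := h4.trans h7
    exact_mod_cast h8
  refine ⟨hS0, hlX, (le_abs_self L0).trans (by linarith), hL8, hVy, hlarge, ?_⟩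
  intro P hP
  have hPQ : ∀ m, P m → m ≤ 4 * X → ⌊(X : ℝ) ^ (1 / (R : ℝ))⌋₊ < m →
      ∀ p ∈ pz ⌊(X : ℝ) ^ (1 / (R : ℝ))⌋₊, ¬ Q N p m := by
    intro m hPm hm4 hm p hp hq
    obtain ⟨h1, -, h2⟩ := (hP m).1 hPm
    have hpp := (mem_pz.1 hp).2
    rcases hq with h3 | h3
    · have h5 : p ∣ m := by exact_mod_cast h3
      have h6 := (Nat.prime_dvd_prime_iff_eq hpp h1).1 h5
      have h7 := (mem_pz.1 hp).1
      omega
    · have h5 : p ∣ m + N := by
        rw [add_comm]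
        exact_mod_cast h3
      have h6 := h2 p hpp h5
      have h7 := mem_pz' (by positivity) hp
      linarith
  refine ⟨hPQ, ?_⟩
  have hPIr := hPI _ hz4 N hE
  have hSy : sing N ≤ 2 ^ (B * r) * Sy N ⌊(X : ℝ) ^ (1 / (r : ℝ))⌋₊ := by
    apply sing_le_Sy N _ (B * r) hN0 ((X : ℝ) ^ (1 / (r : ℝ)))
    · linarith
    · exact (Nat.lt_floor_add_one _).le
    · have e1 : ((X : ℝ) ^ (1 / (r : ℝ))) ^ (B * r + 1) = (X : ℝ) ^ B * (X : ℝ) ^ (1 / (r : ℝ)) := by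
        rw [pow_succ, ← Real.rpow_natCast ((X : ℝ) ^ (1 / (r : ℝ))), ← Real.rpow_mul hXpos.le]
        congr 1
        rw [← Real.rpow_natCast]
        congr 1
        push_cast
        field_simp
      rw [e1]
      have h2 : (0 : ℝ) < (X : ℝ) ^ B := by positivity
      nlinarith
  have hPIlow : cS * 8 * sing N / Real.log X ≤ ∏ p ∈ pz ⌊(X : ℝ) ^ (1 / (r : ℝ))⌋₊,
      (1 - (rhoA (QA N) p : ℝ) / (p - 1 : ℝ)) := by
    refine le_trans ?_ hPIr
    calc cS * 8 * sing N / Real.log X = c0 / Real.log X * (sing N / 2 ^ (B * r)) := by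
          rw [hcS]; field_simp
      _ ≤ c0 / Real.log ⌊(X : ℝ) ^ (1 / (r : ℝ))⌋₊ * Sy N ⌊(X : ℝ) ^ (1 / (r : ℝ))⌋₊ := by
          apply mul_le_mul _ _ (by positivity) (by positivity)
          · gcongr
          · rw [div_le_iff₀ (by positivity)]
            linarith
  have h1 := hlow (QA N) (perA N) (by
    refine le_trans ?_ hPIlow
    rw [div_le_div_iff₀ (by positivity) hlX, one_mul]
    have h2 : 1 ≤ cS * Real.log X := by
      have : 1 / cS ≤ Real.log X := by linarith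
      rw [div_le_iff₀ hcS0] at this
      linarith
    have h3 : cS * 1 ≤ cS * (8 * sing N) := by
      apply mul_le_mul_of_nonneg_left _ hcS0.le
      linarith
    calc Real.log X = 1 * Real.log X := (one_mul _).symm
      _ ≤ (cS * Real.log X) * Real.log X := by gcongr
      _ = (cS * 1) * Real.log X ^ 2 := by ring
      _ ≤ (cS * (8 * sing N)) * Real.log X ^ 2 := by gcongr
      _ = _ := by ring)
  have h2 : (((Finset.Ioc X (2 * X)).filter (fun n => n.Prime ∧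
      ∀ p ∈ pz ⌊(X : ℝ) ^ (1 / (r : ℝ))⌋₊, ¬ QA N p n)).card : ℝ) ≤ (co P X (2 * X) : ℝ) := by
    have : ((Finset.Ioc X (2 * X)).filter (fun n => n.Prime ∧
      ∀ p ∈ pz ⌊(X : ℝ) ^ (1 / (r : ℝ))⌋₊, ¬ QA N p n)).card ≤ co P X (2 * X) := by
      unfold co
      apply card_le_card
      intro m hm
      rw [mem_filter, mem_Ioc] at hm
      rw [mem_filter, mem_Ioc, hP]
      obtain ⟨hm1, hm2, hm3⟩ := hm
      have hrough : ∀ q : ℕ, q.Prime → q ∣ m + N → (X : ℝ) ^ (1 / (r : ℝ)) < q := by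
        intro q hq hd
        apply not_mem_pz hq
        intro h
        apply hm3 q h
        unfold QA
        rw [add_comm] at hd
        exact_mod_cast hd
      refine ⟨hm1, hm2, ?_, fun q hq hd => lt_of_le_of_lt hXX (hrough q hq hd)⟩
      apply length_le (m + N) R (by omega) ((X : ℝ) ^ (1 / (r : ℝ))) hrough
      · have h1 : ((m + N : ℕ) : ℝ) ≤ 3 * (X : ℝ) ^ B := by
          have h5 : X ≤ X ^ B := Nat.le_self_pow (by omega) X
          have h6 : m + N ≤ 3 * X ^ B := by omega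
          exact_mod_cast h6
        have e1 : ((X : ℝ) ^ (1 / (r : ℝ))) ^ R = (X : ℝ) ^ B := by
          rw [← Real.rpow_natCast ((X : ℝ) ^ (1 / (r : ℝ))), ← Real.rpow_mul hXpos.le, hRr,
            ← Real.rpow_natCast]
          congr 1
          field_simp
        rw [pow_succ, e1]
        have h3 : (0 : ℝ) < (X : ℝ) ^ B := by positivity
        nlinarith
      · linarith
    exact_mod_cast this
  refine le_trans ?_ (h1.trans h2)
  calc cS * X / L = cS * 8 * sing N / Real.log X * X / (8 * Real.log X) := by rw [hL]; field_simp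
    _ ≤ _ := by gcongr

end Pool.Agent.W123.RU.Diff
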