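import Pool.Agent.W123.RU.Util

set_option autoImplicit false

/-!
# General collisions and the lower bound for rough values
-/

namespace Pool.Agent.W123.RU

open Finset Filter Pool.Agent.H373R2.T7 Pool.Agent.W123.RP

/-- the collisions of a system -/
def CoG (Q : ℕ → ℕ → Prop) (p h : ℕ) : Prop := ∃ m : ℕ, Q p m ∧ Q p (m + h)

lemma per_add (Q : ℕ → ℕ → Prop) (c : ℕ) (hQ : PerB Q c) (p m m' h h' : ℕ)
    (h1 : m % p = m' % p) (h2 : h % p = h' % p) : Q p (m + h) ↔ Q p (m' + h') := by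
  rw [hQ.per p (m + h), hQ.per p (m' + h'), Nat.add_mod m h, Nat.add_mod m' h', h1, h2]

theorem coll_gen (Q : ℕ → ℕ → Prop) (c : ℕ) (hQ : PerB Q c) (p0 : ℕ) : Coll (CoG Q) p0 (c ^ 2) := by
  classical
  constructor
  · intro p n
    unfold CoG
    apply exists_congr
    intro m
    rw [per_add Q c hQ p m m n (n % p) rfl (Nat.mod_mod n p).symm]
  · intro p hp _
    have hsub : (range p).filter (fun h => CoG Q p h) ⊆
        ((range p).filter (fun r => Q p r)).biUnion (fun a => (range p).filter (fun r => Q p (r + a))) := by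
      intro h hh
      rw [mem_filter] at hh
      obtain ⟨hh1, m, hm1, hm2⟩ := hh
      rw [mem_biUnion]
      refine ⟨m % p, ?_, ?_⟩
      · rw [mem_filter, mem_range]
        exact ⟨Nat.mod_lt _ hp.pos, (hQ.per p m).1 hm1⟩
      · rw [mem_filter]
        refine ⟨hh1, ?_⟩
        rw [add_comm h]
        exact (per_add Q c hQ p m (m % p) h h (Nat.mod_mod m p).symm rfl).1 hm2
    have h1 := Finset.card_biUnion_le_card_mul ((range p).filter (fun r => Q p r))
      (fun a => (range p).filter (fun r => Q p (r + a))) c (by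
        intro a _
        have h2 := nuB_shift Q c hQ a p
        have h3 := hQ.few p hp
        refine le_trans (le_of_eq ?_) h3
        rw [← h2])
    have h2 : ((range p).filter (fun r => Q p r)).card ≤ c := by
      refine le_trans (le_of_eq ?_) (hQ.few p hp)
      unfold nuB
      congr
    have h3 := (card_le_card hsub).trans (h1.trans (Nat.mul_le_mul_right c h2))
    rw [sq]
    convert h3

open Classical in
/-- rough values: lower bound, uniform in the system -/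
theorem rough_lower (c : ℕ) (hc : 1 ≤ c) :
    ∃ K0 : ℕ, 2 ≤ K0 ∧ ∀ r : ℕ, K0 ≤ r → ∀ U : ℕ, ∀ᶠ X : ℕ in atTop, ∀ Q : ℕ → ℕ → Prop,
      PerB Q c → 1 / Real.log X ^ U ≤ Vq Q ⌊(X : ℝ) ^ (1 / (r : ℝ))⌋₊ →
      Vq Q ⌊(X : ℝ) ^ (1 / (r : ℝ))⌋₊ * X / 2 ≤ (((Finset.Ioc X (2 * X)).filter (fun n =>
        ∀ p ∈ pz ⌊(X : ℝ) ^ (1 / (r : ℝ))⌋₊, ¬ Q p n)).card : ℝ) := by
  obtain ⟨K1, x0, hK1, hfund⟩ := sys_fund c hc (1 / 10) (by norm_num)
  refine ⟨max K1 2, le_max_right _ _, ?_⟩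
  intro r hr U
  have hr1 : K1 ≤ r := (le_max_left _ _).trans hr
  have hr2 : 2 ≤ r := (le_max_right _ _).trans hr
  have hrr : (2 : ℝ) ≤ r := by exact_mod_cast hr2
  have hrpos : (0 : ℝ) < r := by linarith
  have hXr : Tendsto (fun X : ℕ => (X : ℝ)) atTop atTop := tendsto_natCast_atTop_atTop
  have hpow : Tendsto (fun X : ℕ => (X : ℝ) ^ (1 / (r : ℝ))) atTop atTop :=
    (tendsto_rpow_atTop (by positivity)).comp hXr
  have hev1 : ∀ᶠ X : ℕ in atTop, 20 * Real.log (X : ℝ) ^ U ≤ √(X : ℝ) := by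
    have h := ((isLittleO_log_rpow_rpow_atTop (U : ℝ) (by norm_num : (0 : ℝ) < 1 / 2)).comp_tendsto
      tendsto_natCast_atTop_atTop).bound (by norm_num : (0 : ℝ) < 1 / 20)
    filter_upwards [h, eventually_ge_atTop 1] with X h2 hX1
    have hX1' : (1 : ℝ) ≤ X := by exact_mod_cast hX1
    have hlog : 0 ≤ Real.log (X : ℝ) := Real.log_nonneg hX1'
    simp only [Function.comp_def] at h2
    rw [Real.norm_of_nonneg (by positivity), Real.norm_of_nonneg (by positivity),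
      Real.rpow_natCast, ← Real.sqrt_eq_rpow] at h2
    linarith
  have hev2 : ∀ᶠ X : ℕ in atTop, 1 ≤ Real.log (X : ℝ) :=
    (Real.tendsto_log_atTop.comp hXr).eventually_ge_atTop 1
  filter_upwards [hev1, hev2, hpow.eventually_ge_atTop ((x0 : ℝ) + 3), eventually_ge_atTop 4] with X e1
    e2 e3 e4
  intro Q hQ hV0
  set y : ℕ := ⌊(X : ℝ) ^ (1 / (r : ℝ))⌋₊ with hy
  have hXpos : (0 : ℝ) < X := by exact_mod_cast (by omega : 0 < X)
  have hyx0 : (x0 : ℝ) + 2 ≤ y := by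
    have := Nat.lt_floor_add_one ((X : ℝ) ^ (1 / (r : ℝ)))
    rw [← hy] at this
    linarith
  have hyx0' : x0 + 2 ≤ y := by exact_mod_cast hyx0
  have hyup : (y : ℝ) ≤ (X : ℝ) ^ (1 / (r : ℝ)) := Nat.floor_le (by positivity)
  have hyr : y ^ r ≤ X := by
    have : ((y ^ r : ℕ) : ℝ) ≤ (X : ℝ) := by
      rw [Nat.cast_pow]
      calc (y : ℝ) ^ r ≤ ((X : ℝ) ^ (1 / (r : ℝ))) ^ r :=
            pow_le_pow_left₀ (by positivity) hyup r
        _ = (X : ℝ) := by
          rw [← Real.rpow_natCast, ← Real.rpow_mul hXpos.le]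
          rw [one_div, inv_mul_cancel₀ hrpos.ne', Real.rpow_one]
    exact_mod_cast this
  have hyK : y ^ K1 ≤ 2 * X := (Nat.pow_le_pow_right (by omega) hr1).trans (hyr.trans (by omega))
  have hf2 := (abs_le.1 (hfund (2 * X) y (by omega) hyK Q hQ (2 * X))).1
  have hf1 := (abs_le.1 (hfund (2 * X) y (by omega) hyK Q hQ X)).2
  have hVq : ∏ p ∈ pz y, (1 - (nuB Q p : ℝ) / p) = Vq Q y := rfl
  rw [hVq] at hf1 hf2
  set V : ℝ := Vq Q y with hV
  have hcard : (((Icc 1 (2 * X)).filter (fun n : ℕ => ∀ p ∈ pz y, ¬ Q p n)).card : ℝ) ≤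
      (((Icc 1 X).filter (fun n : ℕ => ∀ p ∈ pz y, ¬ Q p n)).card : ℝ) +
      (((Ioc X (2 * X)).filter (fun n : ℕ => ∀ p ∈ pz y, ¬ Q p n)).card : ℝ) := by
    have hsub : (Icc 1 (2 * X)).filter (fun n : ℕ => ∀ p ∈ pz y, ¬ Q p n) ⊆
        (Icc 1 X).filter (fun n : ℕ => ∀ p ∈ pz y, ¬ Q p n) ∪
        (Ioc X (2 * X)).filter (fun n : ℕ => ∀ p ∈ pz y, ¬ Q p n) := by
      intro n hn
      rw [mem_filter, mem_Icc] at hn
      rw [mem_union, mem_filter, mem_filter, mem_Icc, mem_Ioc]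
      rcases Nat.lt_or_ge X n with h | h
      · exact Or.inr ⟨⟨h, hn.1.2⟩, hn.2⟩
      · exact Or.inl ⟨⟨hn.1.1, h⟩, hn.2⟩
    exact_mod_cast (card_le_card hsub).trans (card_union_le _ _)
  have hs : √((2 * X : ℕ) : ℝ) ≤ 2 * √(X : ℝ) := by
    push_cast
    calc √(2 * (X : ℝ)) ≤ √(4 * (X : ℝ)) := Real.sqrt_le_sqrt (by linarith)
      _ = 2 * √(X : ℝ) := by
        rw [Real.sqrt_mul (by norm_num), show (4 : ℝ) = 2 ^ 2 by norm_num,
          Real.sqrt_sq (by norm_num)]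
  have hsq : √(X : ℝ) * √(X : ℝ) = X := Real.mul_self_sqrt hXpos.le
  have hs0 : 0 ≤ √(X : ℝ) := Real.sqrt_nonneg _
  have hlU : 0 < Real.log X ^ U := by positivity
  have h3 : 20 * √(X : ℝ) ≤ V * X := by
    have h4 : X / Real.log X ^ U ≤ V * X := by
      calc (X : ℝ) / Real.log X ^ U = 1 / Real.log X ^ U * X := by ring
        _ ≤ V * X := mul_le_mul_of_nonneg_right hV0 hXpos.le
    refine le_trans ?_ h4
    rw [le_div_iff₀ hlU]
    calc 20 * √(X : ℝ) * Real.log X ^ U = √(X : ℝ) * (20 * Real.log X ^ U) := by ring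
      _ ≤ √(X : ℝ) * √(X : ℝ) := by gcongr
      _ = X := hsq
  have hc2 : ((2 * X : ℕ) : ℝ) = 2 * X := by push_cast; ring
  rw [hc2] at hf2 hs hf1
  nlinarith

end Pool.Agent.W123.RU
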