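import Pool.Agent.W123.RU.Gen
import Pool.Agent.H474R2.GE.FA
import Pool.Agent.W149.CS.Ncol

set_option autoImplicit false

/-!
# Systems of irreducible polynomials
-/

namespace Pool.Agent.W123.RU.Poly

open Polynomial Finset Filter Pool.Agent.H373R2.T7 Pool.Agent.W123.RP Pool.Agent.W123.RU
open Pool.Agent.H474R2.PG

/-- the resultant polynomial -/
theorem ncolR (f g : ℤ[X]) (hf : Irreducible f) (hg : Irreducible g) (hfd : 0 < f.natDegree)
    (hgd : 0 < g.natDegree) (hfl : 0 < f.leadingCoeff) (hgl : 0 < g.leadingCoeff) :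
    ∃ R : ℤ[X], (∀ t : ℤ, f ≠ g.comp (X + C t) → R.eval t ≠ 0) ∧
      ∀ (t x p : ℤ), p ∣ f.eval x → p ∣ g.eval (x + t) → p ∣ R.eval t := by
  classical
  set d := f.natDegree with hdd
  set e := g.natDegree with hee
  set F : ℤ[X][X] := f.map C with hF
  set G : ℤ[X][X] := (g.map C).comp (X + C X) with hG
  have hFd : F.natDegree ≤ d := natDegree_map_le
  have hGd : G.natDegree ≤ e := by
    have h1 : (X + C X : ℤ[X][X]).natDegree = 1 := natDegree_X_add_C _
    calc G.natDegree ≤ (g.map C).natDegree * (X + C X : ℤ[X][X]).natDegree := natDegree_comp_le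
      _ ≤ e := by rw [h1, mul_one]; exact natDegree_map_le
  obtain ⟨P, Q, -, -, hPQ⟩ := exists_mul_add_mul_eq_C_resultant F G hFd hGd (Or.inl hfd.ne')
  set R : ℤ[X] := F.resultant G d e with hR
  have key1 : ∀ x t : ℤ, ∃ u v : ℤ, f.eval x * u + g.eval (x + t) * v = R.eval t := by
    intro x t
    refine ⟨((P.eval (C x)).eval t), ((Q.eval (C x)).eval t), ?_⟩
    have h := congrArg (fun q : ℤ[X][X] => (q.eval (C x)).eval t) hPQ
    simp only [eval_add, eval_mul, eval_C] at h
    have hFx : (F.eval (C x)).eval t = f.eval x := by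
      rw [hF, eval_map, eval₂_at_apply, eval_C]
    have hGx : (G.eval (C x)).eval t = g.eval (x + t) := by
      rw [hG, eval_comp, eval_map]
      simp only [eval_add, eval_X, eval_C]
      have := Polynomial.hom_eval₂ g C (evalRingHom t) (C x + X)
      simp only [coe_evalRingHom] at this
      rw [this]
      have hid : (evalRingHom t).comp C = RingHom.id ℤ := by
        ext; simp
      rw [hid]
      simp [eval₂_id]
    rw [hFx, hGx] at h
    exact h
  refine ⟨R, ?_, ?_⟩
  · intro t ht h0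
    have hcop := Pool.Agent.W149.CS.coprime_of_ne f (g.comp (X + C t)) hf
      (Pool.Agent.W149.CS.comp_irred g hg t) hfd
      (by rw [Pool.Agent.W149.CS.comp_natDegree]; exact hgd) hfl
      (by rw [Pool.Agent.W149.CS.comp_lc]; exact hgl) ht
    have h2 := resultant_ne_zero (f.map (Int.castRingHom ℚ))
      ((g.comp (X + C t)).map (Int.castRingHom ℚ)) hcop
    have hinj : Function.Injective (Int.castRingHom ℚ) := RingHom.injective_int _
    rw [natDegree_map_eq_of_injective hinj, natDegree_map_eq_of_injective hinj,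
      Pool.Agent.W149.CS.comp_natDegree] at h2
    rw [resultant_map_map f (g.comp (X + C t)) f.natDegree g.natDegree (Int.castRingHom ℚ)] at h2
    apply h2
    have h1 := resultant_map_map F G d e (evalRingHom t)
    have hFm : F.map (evalRingHom t) = f := by
      rw [hF, Polynomial.map_map]
      have hid : (evalRingHom t).comp C = RingHom.id ℤ := by
        ext; simp
      rw [hid, Polynomial.map_id]
    have hGm : G.map (evalRingHom t) = g.comp (X + C t) := by
      rw [hG, Polynomial.map_comp, Polynomial.map_map]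
      have hid : (evalRingHom t).comp C = RingHom.id ℤ := by
        ext; simp
      rw [hid, Polynomial.map_id]
      simp
    rw [hFm, hGm, ← hR] at h1
    rw [← hdd, ← hee, h1]
    simpa using h0
  · intro t x p hx hxt
    obtain ⟨u, v, huv⟩ := key1 x t
    rw [← huv]
    exact dvd_add (hx.mul_right _) (hxt.mul_right _)

/-- a system of polynomials -/
structure Sys {ι : Type} [Fintype ι] (f : ι → ℤ[X]) : Prop where
  irr : ∀ i, Irreducible (f i)
  deg : ∀ i, 0 < (f i).natDegree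
  lead : ∀ i, 0 < (f i).leadingCoeff
  inj : Function.Injective f
  adm : ∀ p : ℕ, p.Prime → ∃ m : ℕ, ∀ i, ¬ (p : ℤ) ∣ (f i).eval (m : ℤ)

variable {ι : Type} [Fintype ι]

def Q (f : ι → ℤ[X]) (p m : ℕ) : Prop := ∃ i, (p : ℤ) ∣ (f i).eval (m : ℤ)

lemma mod_dvd (p n : ℕ) : (p : ℤ) ∣ (n : ℤ) - ((n % p : ℕ) : ℤ) := by
  refine ⟨((n / p : ℕ) : ℤ), ?_⟩
  have := Nat.mod_add_div n p
  have h : ((n % p : ℕ) : ℤ) + p * ((n / p : ℕ) : ℤ) = n := by exact_mod_cast this
  linarith

lemma per1 (f : ℤ[X]) (p n : ℕ) : (p : ℤ) ∣ f.eval (n : ℤ) ↔ (p : ℤ) ∣ f.eval ((n % p : ℕ) : ℤ) :=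
  Int.dvd_iff_dvd_of_dvd_sub ((mod_dvd p n).trans (sub_dvd_eval_sub _ _ f))

lemma per (f : ι → ℤ[X]) (p n : ℕ) : Q f p n ↔ Q f p (n % p) := by
  unfold Q
  exact exists_congr fun i => per1 (f i) p n

open Classical in
lemma nuB_le_sum (f : ι → ℤ[X]) (p : ℕ) : nuB (Q f) p ≤ ∑ i, rho (f i) p := by
  have h1 : (range p).filter (fun r => Q f p r) ⊆ Finset.univ.biUnion
      (fun i => (range p).filter (fun a : ℕ => (p : ℤ) ∣ (f i).eval (a : ℤ))) := by
    intro r hr
    rw [mem_filter] at hr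
    obtain ⟨h1, i, hi⟩ := hr
    rw [mem_biUnion]
    exact ⟨i, mem_univ _, mem_filter.2 ⟨h1, hi⟩⟩
  have h2 := (card_le_card h1).trans Finset.card_biUnion_le
  refine le_trans (le_of_eq ?_) (h2.trans (le_of_eq ?_))
  · unfold nuB
    congr
  · apply Finset.sum_congr rfl
    intro i _
    unfold rho
    congr

open Classical in
lemma sum_le_nuB (f : ι → ℤ[X]) (p : ℕ)
    (hd : ∀ i j, i ≠ j → ∀ x : ℕ, (p : ℤ) ∣ (f i).eval (x : ℤ) → ¬ (p : ℤ) ∣ (f j).eval (x : ℤ)) :
    ∑ i, rho (f i) p ≤ nuB (Q f) p := by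
  have h1 : Finset.univ.biUnion
      (fun i => (range p).filter (fun a : ℕ => (p : ℤ) ∣ (f i).eval (a : ℤ))) ⊆
      (range p).filter (fun r => Q f p r) := by
    intro r hr
    rw [mem_biUnion] at hr
    obtain ⟨i, -, hi⟩ := hr
    rw [mem_filter] at hi ⊢
    exact ⟨hi.1, i, hi.2⟩
  have h2 := card_le_card h1
  rw [Finset.card_biUnion (by
    intro i _ j _ hij
    rw [Function.onFun, disjoint_left]
    intro r hr hr'
    rw [mem_filter] at hr hr'
    exact hd i j hij r hr.2 hr'.2)] at h2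
  refine le_trans (le_of_eq ?_) (h2.trans (le_of_eq ?_))
  · apply Finset.sum_congr rfl
    intro i _
    unfold rho
    congr
  · unfold nuB
    congr

lemma exists_c (f : ι → ℤ[X]) (hf : Sys f) : ∃ c : ℕ, 1 ≤ c ∧ PerB (Q f) c := by
  classical
  choose B hB using fun i => rho_le (f i) (hf.irr i).ne_zero
  refine ⟨1 + ∑ i, B i + ∑ i, (f i).natDegree, by omega, fun p n => per f p n, ?_⟩
  intro p hp
  by_cases h : ∀ i, B i < p
  · have h1 := nuB_le_sum f p
    have h2 : ∑ i, rho (f i) p ≤ ∑ i, (f i).natDegree := Finset.sum_le_sum fun i _ => hB i p hp (h i)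
    omega
  · push Not at h
    obtain ⟨i, hi⟩ := h
    have h1 := nuB_le (Q f) p
    have h2 : B i ≤ ∑ i, B i := Finset.single_le_sum (fun _ _ => Nat.zero_le _) (mem_univ i)
    omega

open Classical in
lemma adm (f : ι → ℤ[X]) (hf : Sys f) (p : ℕ) (hp : p.Prime) : nuB (Q f) p < p := by
  obtain ⟨m, hm⟩ := hf.adm p hp
  have h1 : (range p).filter (fun r => Q f p r) ⊂ range p := by
    rw [Finset.filter_ssubset]
    refine ⟨m % p, mem_range.2 (Nat.mod_lt _ hp.pos), ?_⟩
    intro h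
    obtain ⟨i, hi⟩ := (per f p m).2 h
    exact hm i hi
  have h2 := card_lt_card h1
  rw [card_range] at h2
  refine lt_of_le_of_lt (le_of_eq ?_) h2
  unfold nuB
  congr

lemma sdata (f : ι → ℤ[X]) (hf : Sys f) (c : ℕ) (hc : PerB (Q f) c) :
    Sdata (Q f) (CoG (Q f)) c (2 * c) (c ^ 2) :=
  ⟨hc, adm f hf, le_rfl, fun _ _ _ _ m h1 h2 => ⟨m, h1, h2⟩, coll_gen (Q f) c hc (2 * c)⟩

/-- the collision polynomial -/
lemma exists_R (f : ι → ℤ[X]) (hf : Sys f) : ∃ R : ℤ[X], R ≠ 0 ∧
    (∀ (h x p : ℤ) (i j : ι), p ∣ (f i).eval x → p ∣ (f j).eval (x + h) → p ∣ R.eval h) := by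
  classical
  choose R hR1 hR2 using fun i j : ι => ncolR (f i) (f j) (hf.irr i) (hf.irr j) (hf.deg i) (hf.deg j)
    (hf.lead i) (hf.lead j)
  refine ⟨∏ i, ∏ j, R i j, ?_, ?_⟩
  · rw [Finset.prod_ne_zero_iff]
    intro i _
    rw [Finset.prod_ne_zero_iff]
    intro j _ h0
    -- both `t = 0` and `t = 1` would be exceptional
    have h1 : ∀ t : ℤ, f i = (f j).comp (X + C t) := by
      intro t
      by_contra hne
      have := hR1 i j t hne
      rw [h0] at this
      simp at this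
    have e0 := h1 0
    have e1 := h1 1
    have e2 : (f j).comp (X + C 1) = f j := by
      rw [← e1, e0]
      simp
    apply ncol_not_periodic ((f j).map (Int.castRingHom ℚ)) _ 1 one_ne_zero
    · have := congrArg (Polynomial.map (Int.castRingHom ℚ)) e2
      rw [Polynomial.map_comp] at this
      simpa using this
    · rw [natDegree_map_eq_of_injective (RingHom.injective_int _)]
      exact hf.deg j
  · intro h x p i j hi hj
    have h1 := hR2 i j h x p hi hj
    rw [eval_prod]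
    refine h1.trans ?_
    refine dvd_trans ?_ (Finset.dvd_prod_of_mem _ (mem_univ i))
    rw [eval_prod]
    exact Finset.dvd_prod_of_mem _ (mem_univ j)

/-- distinct polynomials have no common root modulo large primes -/
lemma exists_p1 (f : ι → ℤ[X]) (hf : Sys f) : ∃ p1 : ℕ, ∀ p : ℕ, p.Prime → p1 < p →
    ∀ i j, i ≠ j → ∀ x : ℕ, (p : ℤ) ∣ (f i).eval (x : ℤ) → ¬ (p : ℤ) ∣ (f j).eval (x : ℤ) := by
  classical
  choose R hR1 hR2 using fun i j : ι => ncolR (f i) (f j) (hf.irr i) (hf.irr j) (hf.deg i) (hf.deg j)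
    (hf.lead i) (hf.lead j)
  refine ⟨∑ i, ∑ j, ((R i j).eval 0).natAbs, ?_⟩
  intro p hp hp1 i j hij x hi hj
  have h1 := hR1 i j 0 (by
    intro h
    rw [map_zero, add_zero, comp_X] at h
    exact hij (hf.inj h))
  have h2 := hR2 i j 0 x p hi (by rw [add_zero]; exact hj)
  have h3 := Int.natAbs_le_of_dvd_ne_zero h2 h1
  rw [Int.natAbs_natCast] at h3
  have h4 : ((R i j).eval 0).natAbs ≤ ∑ j, ((R i j).eval 0).natAbs :=
    Finset.single_le_sum (f := fun j => ((R i j).eval 0).natAbs) (fun _ _ => Nat.zero_le _) (mem_univ j)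
  have h5 : ∑ j, ((R i j).eval 0).natAbs ≤ ∑ i, ∑ j, ((R i j).eval 0).natAbs :=
    Finset.single_le_sum (f := fun i => ∑ j, ((R i j).eval 0).natAbs) (fun _ _ => Nat.zero_le _)
      (mem_univ i)
  omega

/-- growth of a polynomial -/
lemma eval_bound (R : ℤ[X]) : ∃ (K D : ℕ), ∀ t : ℤ, |((R.eval t : ℤ) : ℝ)| ≤ K * (1 + |(t : ℝ)|) ^ D := by
  obtain ⟨K, hK⟩ := exists_nat_ge (∑ i ∈ range (R.natDegree + 1), |((R.coeff i : ℤ) : ℝ)|)
  refine ⟨K, R.natDegree, fun t => ?_⟩
  have h0 : 0 ≤ |(t : ℝ)| := abs_nonneg _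
  refine le_trans ?_ (mul_le_mul_of_nonneg_right hK (by positivity))
  rw [eval_eq_sum_range]
  push_cast
  refine (abs_sum_le_sum_abs _ _).trans ?_
  rw [sum_mul]
  refine sum_le_sum fun i hi => ?_
  rw [abs_mul, abs_pow]
  refine mul_le_mul_of_nonneg_left ?_ (abs_nonneg _)
  calc |(t : ℝ)| ^ i ≤ (1 + |(t : ℝ)|) ^ i := pow_le_pow_left₀ h0 (by linarith) _
    _ ≤ (1 + |(t : ℝ)|) ^ R.natDegree :=
      pow_le_pow_right₀ (by linarith) (by simpa [Nat.lt_succ_iff] using hi)

open Classical in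
/-- few large primes divide a collision -/
lemma exists_large (f : ι → ℤ[X]) (hf : Sys f) : ∃ (D' e : ℕ), ∀ T : ℕ, ∃ E0 : Finset ℕ, E0.card ≤ e ∧
    ∀ y : ℕ, ∀ h ∈ Icc 1 T, h ∉ E0 → ((pz y).filter (fun p : ℕ => T < p ∧ CoG (Q f) p h)).card ≤ D' * T := by
  obtain ⟨R, hR0, hR⟩ := exists_R f hf
  obtain ⟨K, D, hKD⟩ := eval_bound R
  refine ⟨2 * (K + D), R.natDegree, fun T => ⟨(Icc 1 T).filter (fun h : ℕ => R.eval (h : ℤ) = 0), ?_, ?_⟩⟩
  · calc ((Icc 1 T).filter (fun h : ℕ => R.eval (h : ℤ) = 0)).card ≤ R.roots.toFinset.card := by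
          apply Finset.card_le_card_of_injOn (fun h : ℕ => (h : ℤ))
          · intro h hh
            rw [Finset.mem_coe, mem_filter] at hh
            rw [Finset.mem_coe, Multiset.mem_toFinset, mem_roots hR0]
            exact hh.2
          · intro a _ b _ hab
            have h3 : ((a : ℕ) : ℤ) = ((b : ℕ) : ℤ) := hab
            exact_mod_cast h3
      _ ≤ Multiset.card R.roots := Multiset.toFinset_card_le _
      _ ≤ R.natDegree := card_roots' R
  · intro y h hh hE
    rw [mem_filter, not_and] at hE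
    have hne : R.eval (h : ℤ) ≠ 0 := hE hh
    rw [mem_Icc] at hh
    have h1 := card_le_log ((pz y).filter (fun p : ℕ => T < p ∧ CoG (Q f) p h)) (R.eval (h : ℤ)).natAbs
      (Int.natAbs_ne_zero.2 hne) (fun p hp => by
        rw [mem_filter] at hp
        obtain ⟨hp1, hp2, m, ⟨i, hi⟩, ⟨j, hj⟩⟩ := hp
        refine ⟨(mem_pz.1 hp1).2, ?_⟩
        push_cast at hj
        exact Int.natCast_dvd.1 (hR h m p i j hi hj))
    have hT1 : (1 : ℝ) ≤ T := by exact_mod_cast (by omega : 1 ≤ T)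
    have hh1 : (h : ℝ) ≤ T := by exact_mod_cast hh.2
    have hh0 : (0 : ℝ) ≤ h := Nat.cast_nonneg h
    have hK0 : (0 : ℝ) ≤ K := Nat.cast_nonneg K
    have hD0 : (0 : ℝ) ≤ D := Nat.cast_nonneg D
    have h2 : Real.log ((R.eval (h : ℤ)).natAbs : ℝ) ≤ (K + D) * T := by
      have e1 : (((R.eval (h : ℤ)).natAbs : ℕ) : ℝ) = |((R.eval (h : ℤ) : ℤ) : ℝ)| := by
        rw [Nat.cast_natAbs, Int.cast_abs]
      rw [e1]
      have h3 := hKD h
      have e2 : |((h : ℤ) : ℝ)| = (h : ℝ) := by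
        rw [Int.cast_natCast, abs_of_nonneg hh0]
      rw [e2] at h3
      have h4 : 0 < |((R.eval (h : ℤ) : ℤ) : ℝ)| := abs_pos.2 (by exact_mod_cast hne)
      have h5 : |((R.eval (h : ℤ) : ℤ) : ℝ)| ≤ (K + 1) * (1 + h) ^ D := by
        refine h3.trans ?_
        gcongr
        linarith
      calc Real.log |((R.eval (h : ℤ) : ℤ) : ℝ)| ≤ Real.log ((K + 1) * (1 + h) ^ D) :=
            Real.log_le_log h4 h5
        _ = Real.log (K + 1) + D * Real.log (1 + h) := by
            rw [Real.log_mul (by positivity) (by positivity), Real.log_pow]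
        _ ≤ K + D * h := by
            have a1 := Real.log_le_sub_one_of_pos (x := (K : ℝ) + 1) (by positivity)
            have a2 := Real.log_le_sub_one_of_pos (x := 1 + (h : ℝ)) (by positivity)
            have a3 : D * Real.log (1 + h) ≤ D * (h : ℝ) := mul_le_mul_of_nonneg_left (by linarith) hD0
            linarith
        _ ≤ (K + D) * T := by nlinarith [mul_le_mul_of_nonneg_left hh1 hD0, mul_le_mul_of_nonneg_left hT1 hK0]
    have hl2 : (1 : ℝ) / 2 ≤ Real.log 2 := by
      have := Real.log_two_gt_d9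
      linarith
    have hc0 : (0 : ℝ) ≤ (((pz y).filter (fun p : ℕ => T < p ∧ CoG (Q f) p h)).card : ℝ) :=
      Nat.cast_nonneg _
    have h6 := mul_le_mul_of_nonneg_left hl2 hc0
    have h7 : (((pz y).filter (fun p : ℕ => T < p ∧ CoG (Q f) p h)).card : ℝ) ≤
        ((2 * (K + D) * T : ℕ) : ℝ) := by
      push_cast
      linarith
    exact_mod_cast h7

end Pool.Agent.W123.RU.Poly
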