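import Pool.Agent.W123.RU.PolyV

set_option autoImplicit false

/-!
# Values at primes
-/

namespace Pool.Agent.W123.RU.Poly

open Polynomial Finset Filter Pool.Agent.H373R2.T7 Pool.Agent.W123.RP Pool.Agent.W123.RU
open Pool.Agent.H474R2.PG

/-- general lower bound of the product for the primes -/
lemma PA_low (Q : ℕ → ℕ → Prop) (c : ℕ) (hQ : PerA Q c) (hadm : ∀ p : ℕ, p.Prime → rhoA Q p + 2 ≤ p)
    (y : ℕ) :
    (∏ p ∈ pz (4 * c + 4), (p : ℝ)⁻¹) *
      Real.exp (-(∑' n : ℕ, (2 * (c : ℝ) + 8 * (c : ℝ) ^ 2) / (n : ℝ) ^ 2)) *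
      Real.exp (-(∑ p ∈ pz y, (rhoA Q p : ℝ) / p)) ≤ ∏ p ∈ pz y, (1 - (rhoA Q p : ℝ) / (p - 1 : ℝ)) := by
  have hs : Summable (fun n : ℕ => (2 * (c : ℝ) + 8 * (c : ℝ) ^ 2) / (n : ℝ) ^ 2) :=
    (Real.summable_one_div_nat_pow.2 (by norm_num : 1 < 2)).mul_left (2 * (c : ℝ) + 8 * (c : ℝ) ^ 2)
      |>.congr (fun n => by ring)
  have h1 : ∏ p ∈ pz y, ((if p ≤ 4 * c + 4 then (p : ℝ)⁻¹ else 1) *
      Real.exp (-((2 * (c : ℝ) + 8 * (c : ℝ) ^ 2) / (p : ℝ) ^ 2)) *
      Real.exp (-((rhoA Q p : ℝ) / p))) ≤ ∏ p ∈ pz y, (1 - (rhoA Q p : ℝ) / (p - 1 : ℝ)) := by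
    apply Finset.prod_le_prod
    · intro p hp
      split_ifs <;> positivity
    · intro p hp
      have hpp := (mem_pz.1 hp).2
      have hp2 : (2 : ℝ) ≤ p := by exact_mod_cast hpp.two_le
      have hp0 : (0 : ℝ) < p := by linarith
      have hp1 : (0 : ℝ) < (p : ℝ) - 1 := by linarith
      have ha := hadm p hpp
      have hf := hQ.few p hpp
      have hfr : (rhoA Q p : ℝ) ≤ c := by exact_mod_cast hf
      have hn0 : (0 : ℝ) ≤ rhoA Q p := Nat.cast_nonneg _
      have hc0 : (0 : ℝ) ≤ c := Nat.cast_nonneg _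
      have he1 : Real.exp (-((2 * (c : ℝ) + 8 * (c : ℝ) ^ 2) / (p : ℝ) ^ 2)) ≤ 1 := by
        rw [Real.exp_le_one_iff]
        have : 0 ≤ (2 * (c : ℝ) + 8 * (c : ℝ) ^ 2) / (p : ℝ) ^ 2 := by positivity
        linarith
      have he2 : Real.exp (-((rhoA Q p : ℝ) / p)) ≤ 1 := by
        rw [Real.exp_le_one_iff]
        have : 0 ≤ (rhoA Q p : ℝ) / p := by positivity
        linarith
      split_ifs with h
      · have h2 : (rhoA Q p : ℝ) + 2 ≤ p := by exact_mod_cast ha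
        have h3 : (p : ℝ)⁻¹ ≤ 1 - (rhoA Q p : ℝ) / (p - 1 : ℝ) := by
          have h4 : (rhoA Q p : ℝ) / (p - 1 : ℝ) ≤ 1 - (p : ℝ)⁻¹ := by
            rw [div_le_iff₀ hp1]
            have h5 : (1 - (p : ℝ)⁻¹) * ((p : ℝ) - 1) = p - 2 + (p : ℝ)⁻¹ := by
              field_simp
              ring
            rw [h5]
            have : 0 < (p : ℝ)⁻¹ := by positivity
            linarith
          linarith
        have hpi : 0 ≤ (p : ℝ)⁻¹ := by positivity
        calc (p : ℝ)⁻¹ * Real.exp (-((2 * (c : ℝ) + 8 * (c : ℝ) ^ 2) / (p : ℝ) ^ 2)) *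
            Real.exp (-((rhoA Q p : ℝ) / p)) ≤ (p : ℝ)⁻¹ * 1 * 1 := by gcongr
          _ ≤ _ := by rw [mul_one, mul_one]; exact h3
      · rw [one_mul]
        push Not at h
        have hc2 : 4 * (c : ℝ) + 4 ≤ p := by
          have : 4 * c + 4 ≤ p := h.le
          exact_mod_cast this
        obtain ⟨w, hw⟩ : ∃ w : ℝ, w = (rhoA Q p : ℝ) / (p - 1 : ℝ) := ⟨_, rfl⟩
        rw [← hw]
        have hw0 : 0 ≤ w := by rw [hw]; positivity
        have hw2 : w ≤ 1 / 2 := by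
          rw [hw, div_le_iff₀ hp1]; linarith
        have hpm : (p : ℝ) ≤ 2 * ((p : ℝ) - 1) := by linarith
        have hw3 : w ≤ (rhoA Q p : ℝ) / p + 2 * (c : ℝ) / (p : ℝ) ^ 2 := by
          rw [hw, div_add_div _ _ hp0.ne' (by positivity), div_le_div_iff₀ hp1 (by positivity)]
          have h6 : (rhoA Q p : ℝ) * p ^ 2 ≤ 2 * c * ((p : ℝ) - 1) * p := by
            calc (rhoA Q p : ℝ) * p ^ 2 = rhoA Q p * p * p := by ring
              _ ≤ c * (2 * ((p : ℝ) - 1)) * p := by gcongr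
              _ = _ := by ring
          nlinarith
        have hw4 : 2 * w ^ 2 ≤ 8 * (c : ℝ) ^ 2 / (p : ℝ) ^ 2 := by
          have h7 : w ≤ 2 * c / p := by
            rw [hw, div_le_div_iff₀ hp1 hp0]
            calc (rhoA Q p : ℝ) * p ≤ c * (2 * ((p : ℝ) - 1)) := by gcongr
              _ = _ := by ring
          calc 2 * w ^ 2 ≤ 2 * (2 * c / p) ^ 2 := by gcongr
            _ = _ := by rw [div_pow]; ring
        have h4 : (1 : ℝ) ≤ (1 - w) * (1 + w + 2 * w ^ 2) := by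
          nlinarith [mul_nonneg (sq_nonneg w) (sub_nonneg.2 hw2)]
        have h5 : 1 + w + 2 * w ^ 2 ≤ Real.exp (w + 2 * w ^ 2) := by
          have := Real.add_one_le_exp (w + 2 * w ^ 2)
          linarith
        have h6 : 1 ≤ (1 - w) * Real.exp (w + 2 * w ^ 2) := by
          refine h4.trans ?_
          apply mul_le_mul_of_nonneg_left h5
          linarith
        rw [← Real.exp_add]
        calc Real.exp (-((2 * (c : ℝ) + 8 * (c : ℝ) ^ 2) / (p : ℝ) ^ 2) + -((rhoA Q p : ℝ) / p)) ≤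
            Real.exp (-(w + 2 * w ^ 2)) := by
              apply Real.exp_le_exp.2
              rw [add_div]
              linarith
          _ = Real.exp (-(w + 2 * w ^ 2)) * 1 := (mul_one _).symm
          _ ≤ Real.exp (-(w + 2 * w ^ 2)) * ((1 - w) * Real.exp (w + 2 * w ^ 2)) := by gcongr
          _ = (1 - w) * (Real.exp (-(w + 2 * w ^ 2)) * Real.exp (w + 2 * w ^ 2)) := by ring
          _ = 1 - w := by rw [← Real.exp_add, neg_add_cancel, Real.exp_zero, mul_one]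
  refine le_trans ?_ h1
  rw [Finset.prod_mul_distrib, Finset.prod_mul_distrib, ← Real.exp_sum, ← Real.exp_sum,
    Finset.sum_neg_distrib, Finset.sum_neg_distrib]
  apply mul_le_mul_of_nonneg_right _ (Real.exp_nonneg _)
  apply mul_le_mul
  · rw [Finset.prod_ite, Finset.prod_const_one, mul_one]
    have hsub : (pz y).filter (fun p => p ≤ 4 * c + 4) ⊆ pz (4 * c + 4) := by
      intro p hp
      rw [mem_filter, mem_pz] at hp
      exact mem_pz.2 ⟨hp.2, hp.1.2⟩
    rw [← Finset.prod_sdiff hsub]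
    have h3 : ∏ p ∈ pz (4 * c + 4) \ (pz y).filter (fun p => p ≤ 4 * c + 4), (p : ℝ)⁻¹ ≤ 1 := by
      apply Finset.prod_le_one
      · intro p _; positivity
      · intro p hp
        have : (1 : ℝ) ≤ p := by exact_mod_cast (mem_pz.1 (mem_sdiff.1 hp).1).2.one_lt.le
        exact inv_le_one_of_one_le₀ this
    have h4 : 0 ≤ ∏ p ∈ (pz y).filter (fun p => p ≤ 4 * c + 4), (p : ℝ)⁻¹ :=
      Finset.prod_nonneg fun p _ => by positivity
    nlinarith
  · apply Real.exp_le_exp.2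
    have := hs.sum_le_tsum (pz y) (fun n _ => by positivity)
    linarith
  · positivity
  · apply Finset.prod_nonneg
    intro p _
    split_ifs <;> positivity

variable {ι : Type} [Fintype ι]

/-- admissibility at the primes -/
def AdmP (f : ι → ℤ[X]) : Prop :=
  ∀ p : ℕ, p.Prime → ∃ m : ℕ, ¬ p ∣ m ∧ ∀ i, ¬ (p : ℤ) ∣ (f i).eval (m : ℤ)

open Classical in
lemma rhoA_le_nuB (Q : ℕ → ℕ → Prop) (p : ℕ) : rhoA Q p ≤ nuB Q p := by
  unfold rhoA nuB
  apply card_le_card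
  intro r hr
  rw [mem_filter] at hr ⊢
  exact ⟨hr.1, hr.2.2⟩

lemma perA_of_perB (Q : ℕ → ℕ → Prop) (c : ℕ) (h : PerB Q c) : PerA Q c :=
  ⟨h.per, fun p hp => (rhoA_le_nuB Q p).trans (h.few p hp)⟩

open Classical in
lemma admA (f : ι → ℤ[X]) (hf : AdmP f) (p : ℕ) (hp : p.Prime) : rhoA (Q f) p + 2 ≤ p := by
  obtain ⟨m, hm0, hm⟩ := hf p hp
  have h1 : (range p).filter (fun r => ¬ p ∣ r ∧ Q f p r) ⊆ ((range p).erase 0).erase (m % p) := by
    intro r hr
    rw [mem_filter] at hr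
    obtain ⟨hr1, hr2, hr3⟩ := hr
    rw [mem_erase, mem_erase]
    refine ⟨?_, ?_, hr1⟩
    · rintro rfl
      obtain ⟨i, hi⟩ := (per f p m).2 hr3
      exact hm i hi
    · rintro rfl
      exact hr2 (dvd_zero p)
  have h2 := card_le_card h1
  have hmp : m % p ≠ 0 := fun h => hm0 (Nat.dvd_of_mod_eq_zero h)
  rw [card_erase_of_mem (by
    rw [mem_erase]
    exact ⟨hmp, mem_range.2 (Nat.mod_lt _ hp.pos)⟩), card_erase_of_mem (mem_range.2 hp.pos),
    card_range] at h2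
  have h3 : rhoA (Q f) p = ((range p).filter (fun r => ¬ p ∣ r ∧ Q f p r)).card := by
    unfold rhoA
    congr
  have := hp.two_le
  omega

/-- lower bound for the product of a system at the primes -/
theorem PA_bound (f : ι → ℤ[X]) (hf : Sys f) (hP : AdmP f) : ∃ v : ℝ, 0 < v ∧ ∀ y : ℕ, 3 ≤ y →
    v / Real.log y ^ (Fintype.card ι) ≤ ∏ p ∈ pz y, (1 - (rhoA (Q f) p : ℝ) / (p - 1 : ℝ)) := by
  classical
  obtain ⟨c, hc, hQ⟩ := exists_c f hf
  choose C hC hM using fun i => Pool.Agent.H474R2.GE.mertens_rho (f i) (hf.irr i) (hf.deg i)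
  set CC : ℝ := ∑ i, C i with hCC
  have hsum : ∀ y : ℕ, 3 ≤ y → |∑ i, ∑ p ∈ pz y, (rho (f i) p : ℝ) / p -
      (Fintype.card ι : ℝ) * Real.log (Real.log y)| ≤ CC := by
    intro y hy
    have e : ∑ i, ∑ p ∈ pz y, (rho (f i) p : ℝ) / p - (Fintype.card ι : ℝ) * Real.log (Real.log y) =
        ∑ i, (∑ p ∈ pz y, (rho (f i) p : ℝ) / p - Real.log (Real.log y)) := by
      rw [Finset.sum_sub_distrib, Finset.sum_const, Finset.card_univ, nsmul_eq_mul]
    rw [e]
    refine (Finset.abs_sum_le_sum_abs _ _).trans (Finset.sum_le_sum fun i _ => ?_)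
    have := hM i y (by exact_mod_cast hy)
    rwa [Sg_eq] at this
  set v0 : ℝ := (∏ p ∈ pz (4 * c + 4), (p : ℝ)⁻¹) *
      Real.exp (-(∑' n : ℕ, (2 * (c : ℝ) + 8 * (c : ℝ) ^ 2) / (n : ℝ) ^ 2)) with hv0
  have hv00 : 0 < v0 := by
    apply mul_pos _ (Real.exp_pos _)
    apply Finset.prod_pos
    intro p hp
    have : (0 : ℝ) < p := by exact_mod_cast (mem_pz.1 hp).2.pos
    positivity
  refine ⟨v0 * Real.exp (-CC), by positivity, ?_⟩
  intro y hy
  have h1 := abs_le.1 (hsum y hy)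
  have hlog : 0 < Real.log y := Real.log_pos (by exact_mod_cast (by omega : 1 < y))
  have hloglog : Real.exp (-((Fintype.card ι : ℝ) * Real.log (Real.log y))) =
      1 / Real.log y ^ (Fintype.card ι) := by
    rw [Real.exp_neg, mul_comm, Real.exp_mul, Real.exp_log hlog, Real.rpow_natCast, one_div]
  refine le_trans ?_ (PA_low (Q f) c (perA_of_perB _ c hQ) (admA f hP) y)
  rw [← hv0]
  have h2 : ∑ p ∈ pz y, (rhoA (Q f) p : ℝ) / p ≤ ∑ i, ∑ p ∈ pz y, (rho (f i) p : ℝ) / p := by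
    rw [Finset.sum_comm]
    apply Finset.sum_le_sum
    intro p _
    rw [← Finset.sum_div]
    apply div_le_div_of_nonneg_right _ (Nat.cast_nonneg _)
    exact_mod_cast (rhoA_le_nuB (Q f) p).trans (nuB_le_sum f p)
  calc v0 * Real.exp (-CC) / Real.log y ^ (Fintype.card ι) =
      v0 * (Real.exp (-CC) * (1 / Real.log y ^ (Fintype.card ι))) := by ring
    _ = v0 * Real.exp (-CC + -((Fintype.card ι : ℝ) * Real.log (Real.log y))) := by
      rw [← hloglog, ← Real.exp_add]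
    _ ≤ _ := by
      apply mul_le_mul_of_nonneg_left _ hv00.le
      apply Real.exp_le_exp.2
      linarith

/-- the system with the variable -/
noncomputable def withX (f : ι → ℤ[X]) : Option ι → ℤ[X]
  | none => X
  | some i => f i

lemma sys_withX (f : ι → ℤ[X]) (hf : Sys f) (hP : AdmP f) (hX : ∀ i, f i ≠ X) : Sys (withX f) := by
  refine ⟨?_, ?_, ?_, ?_, ?_⟩
  · rintro (_ | i)
    · exact irreducible_X
    · exact hf.irr i
  · rintro (_ | i)
    · change 0 < (X : ℤ[X]).natDegree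
      rw [natDegree_X]; norm_num
    · exact hf.deg i
  · rintro (_ | i)
    · change 0 < (X : ℤ[X]).leadingCoeff
      rw [leadingCoeff_X]; norm_num
    · exact hf.lead i
  · rintro (_ | i) (_ | j) h
    · rfl
    · exact absurd h.symm (hX j)
    · exact absurd h (hX i)
    · exact congrArg some (hf.inj h)
  · intro p hp
    obtain ⟨m, hm0, hm⟩ := hP p hp
    refine ⟨m, ?_⟩
    rintro (_ | i)
    · change ¬ (p : ℤ) ∣ (X : ℤ[X]).eval (m : ℤ)
      rw [eval_X]
      exact_mod_cast hm0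
    · exact hm i

end Pool.Agent.W123.RU.Poly
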