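import Pool.Agent.W123.RU.Poly

set_option autoImplicit false

/-!
# The sieve product of a system of polynomials
-/

namespace Pool.Agent.W123.RU.Poly

open Polynomial Finset Filter Pool.Agent.H373R2.T7 Pool.Agent.W123.RP Pool.Agent.W123.RU
open Pool.Agent.H474R2.PG

/-- general lower bound of a sieve product -/
lemma Vq_low (Q : ℕ → ℕ → Prop) (c : ℕ) (hQ : PerB Q c) (hadm : ∀ p : ℕ, p.Prime → nuB Q p < p) (y : ℕ) :
    (∏ p ∈ pz (2 * c), (p : ℝ)⁻¹) * Real.exp (-(∑' n : ℕ, 2 * (c : ℝ) ^ 2 / (n : ℝ) ^ 2)) *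
      Real.exp (-(∑ p ∈ pz y, (nuB Q p : ℝ) / p)) ≤ Vq Q y := by
  have hs : Summable (fun n : ℕ => 2 * (c : ℝ) ^ 2 / (n : ℝ) ^ 2) :=
    (Real.summable_one_div_nat_pow.2 (by norm_num : 1 < 2)).mul_left (2 * (c : ℝ) ^ 2) |>.congr
      (fun n => by ring)
  have h1 : ∏ p ∈ pz y, ((if p ≤ 2 * c then (p : ℝ)⁻¹ else 1) *
      Real.exp (-(2 * (c : ℝ) ^ 2 / (p : ℝ) ^ 2)) * Real.exp (-((nuB Q p : ℝ) / p))) ≤ Vq Q y := by
    apply Finset.prod_le_prod
    · intro p hp
      split_ifs <;> positivity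
    · intro p hp
      have hpp := (mem_pz.1 hp).2
      have hp2 : (2 : ℝ) ≤ p := by exact_mod_cast hpp.two_le
      have hp0 : (0 : ℝ) < p := by linarith
      have ha := hadm p hpp
      have hf := hQ.few p hpp
      have hfr : (nuB Q p : ℝ) ≤ c := by exact_mod_cast hf
      have hn0 : (0 : ℝ) ≤ nuB Q p := Nat.cast_nonneg _
      have he1 : Real.exp (-(2 * (c : ℝ) ^ 2 / (p : ℝ) ^ 2)) ≤ 1 := by
        rw [Real.exp_le_one_iff]
        have : 0 ≤ 2 * (c : ℝ) ^ 2 / (p : ℝ) ^ 2 := by positivity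
        linarith
      have he2 : Real.exp (-((nuB Q p : ℝ) / p)) ≤ 1 := by
        rw [Real.exp_le_one_iff]
        have : 0 ≤ (nuB Q p : ℝ) / p := by positivity
        linarith
      split_ifs with h
      · have h2 : (nuB Q p : ℝ) + 1 ≤ p := by exact_mod_cast ha
        have h3 : (p : ℝ)⁻¹ ≤ 1 - (nuB Q p : ℝ) / p := by
          rw [le_sub_iff_add_le, inv_eq_one_div, ← add_div, div_le_one hp0]
          linarith
        have hpi : 0 ≤ (p : ℝ)⁻¹ := by positivity
        calc (p : ℝ)⁻¹ * Real.exp (-(2 * (c : ℝ) ^ 2 / (p : ℝ) ^ 2)) * Real.exp (-((nuB Q p : ℝ) / p)) ≤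
            (p : ℝ)⁻¹ * 1 * 1 := by gcongr
          _ ≤ _ := by rw [mul_one, mul_one]; exact h3
      · rw [one_mul]
        push Not at h
        have hc2 : 2 * (c : ℝ) ≤ p := by exact_mod_cast h.le
        obtain ⟨u, hu⟩ : ∃ u : ℝ, u = (nuB Q p : ℝ) / p := ⟨_, rfl⟩
        rw [← hu]
        have hu0 : 0 ≤ u := by rw [hu]; positivity
        have hu2 : u ≤ 1 / 2 := by
          rw [hu, div_le_iff₀ hp0]; linarith
        have hu3 : 2 * u ^ 2 ≤ 2 * (c : ℝ) ^ 2 / (p : ℝ) ^ 2 := by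
          rw [hu, div_pow, ← mul_div_assoc]
          gcongr
        have h4 : (1 : ℝ) ≤ (1 - u) * (1 + u + 2 * u ^ 2) := by
          nlinarith [mul_nonneg (sq_nonneg u) (sub_nonneg.2 hu2)]
        have h5 : 1 + u + 2 * u ^ 2 ≤ Real.exp (u + 2 * u ^ 2) := by
          have := Real.add_one_le_exp (u + 2 * u ^ 2)
          linarith
        have h6 : 1 ≤ (1 - u) * Real.exp (u + 2 * u ^ 2) := by
          refine h4.trans ?_
          apply mul_le_mul_of_nonneg_left h5
          linarith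
        rw [← Real.exp_add]
        calc Real.exp (-(2 * (c : ℝ) ^ 2 / (p : ℝ) ^ 2) + -u) ≤ Real.exp (-(u + 2 * u ^ 2)) := by
              apply Real.exp_le_exp.2
              linarith
          _ = Real.exp (-(u + 2 * u ^ 2)) * 1 := (mul_one _).symm
          _ ≤ Real.exp (-(u + 2 * u ^ 2)) * ((1 - u) * Real.exp (u + 2 * u ^ 2)) := by gcongr
          _ = (1 - u) * (Real.exp (-(u + 2 * u ^ 2)) * Real.exp (u + 2 * u ^ 2)) := by ring
          _ = 1 - u := by rw [← Real.exp_add, neg_add_cancel, Real.exp_zero, mul_one]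
  refine le_trans ?_ h1
  rw [Finset.prod_mul_distrib, Finset.prod_mul_distrib, ← Real.exp_sum, ← Real.exp_sum,
    Finset.sum_neg_distrib, Finset.sum_neg_distrib]
  apply mul_le_mul_of_nonneg_right _ (Real.exp_nonneg _)
  apply mul_le_mul
  · rw [Finset.prod_ite, Finset.prod_const_one, mul_one]
    have hsub : (pz y).filter (fun p => p ≤ 2 * c) ⊆ pz (2 * c) := by
      intro p hp
      rw [mem_filter, mem_pz] at hp
      exact mem_pz.2 ⟨hp.2, hp.1.2⟩
    rw [← Finset.prod_sdiff hsub]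
    have h3 : ∏ p ∈ pz (2 * c) \ (pz y).filter (fun p => p ≤ 2 * c), (p : ℝ)⁻¹ ≤ 1 := by
      apply Finset.prod_le_one
      · intro p _; positivity
      · intro p hp
        have : (1 : ℝ) ≤ p := by exact_mod_cast (mem_pz.1 (mem_sdiff.1 hp).1).2.one_lt.le
        exact inv_le_one_of_one_le₀ this
    have h4 : 0 ≤ ∏ p ∈ (pz y).filter (fun p => p ≤ 2 * c), (p : ℝ)⁻¹ :=
      Finset.prod_nonneg fun p _ => by positivity
    nlinarith
  · apply Real.exp_le_exp.2
    have := hs.sum_le_tsum (pz y) (fun n _ => by positivity)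
    linarith
  · positivity
  · apply Finset.prod_nonneg
    intro p _
    split_ifs <;> positivity

/-- general upper bound of a sieve product -/
lemma Vq_up (Q : ℕ → ℕ → Prop) (y : ℕ) : Vq Q y ≤ Real.exp (-(∑ p ∈ pz y, (nuB Q p : ℝ) / p)) := by
  rw [← Finset.sum_neg_distrib, Real.exp_sum]
  apply Finset.prod_le_prod
  · intro p hp
    exact one_sub_nonneg Q p (mem_pz.1 hp).2
  · intro p _
    have := Real.add_one_le_exp (-((nuB Q p : ℝ) / p))
    linarith

variable {ι : Type} [Fintype ι]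

lemma Sg_eq (r : ℕ → ℕ) (y : ℕ) : Sg r (y : ℝ) = ∑ p ∈ pz y, (r p : ℝ) / p := by
  unfold Sg PR pz
  rw [Nat.floor_natCast]

/-- two-sided bounds of the sieve product of a system -/
theorem V_bounds (f : ι → ℤ[X]) (hf : Sys f) : ∃ v Cv : ℝ, 0 < v ∧ 0 < Cv ∧ ∀ y : ℕ, 3 ≤ y →
    v / Real.log y ^ (Fintype.card ι) ≤ Vq (Q f) y ∧ Vq (Q f) y ≤ Cv / Real.log y ^ (Fintype.card ι) := by
  classical
  obtain ⟨c, hc, hQ⟩ := exists_c f hf
  obtain ⟨p1, hp1⟩ := exists_p1 f hf
  choose C hC hM using fun i => Pool.Agent.H474R2.GE.mertens_rho (f i) (hf.irr i) (hf.deg i)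
  set CC : ℝ := ∑ i, C i with hCC
  set M1 : ℝ := ∑ p ∈ pz p1, ∑ i, (rho (f i) p : ℝ) / p with hM1
  have hsum : ∀ y : ℕ, 3 ≤ y → |∑ i, ∑ p ∈ pz y, (rho (f i) p : ℝ) / p -
      (Fintype.card ι : ℝ) * Real.log (Real.log y)| ≤ CC := by
    intro y hy
    have e : ∑ i, ∑ p ∈ pz y, (rho (f i) p : ℝ) / p - (Fintype.card ι : ℝ) * Real.log (Real.log y) =
        ∑ i, (∑ p ∈ pz y, (rho (f i) p : ℝ) / p - Real.log (Real.log y)) := by
      rw [Finset.sum_sub_distrib, Finset.sum_const, Finset.card_univ, nsmul_eq_mul]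
    rw [e]
    refine (Finset.abs_sum_le_sum_abs _ _).trans (Finset.sum_le_sum fun i _ => ?_)
    have := hM i y (by exact_mod_cast hy)
    rwa [Sg_eq] at this
  have hloglog : ∀ y : ℕ, 3 ≤ y → Real.exp (-((Fintype.card ι : ℝ) * Real.log (Real.log y))) =
      1 / Real.log y ^ (Fintype.card ι) := by
    intro y hy
    have hlog : 0 < Real.log y := Real.log_pos (by exact_mod_cast (by omega : 1 < y))
    rw [Real.exp_neg, mul_comm, Real.exp_mul, Real.exp_log hlog, Real.rpow_natCast, one_div]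
  set v0 : ℝ := (∏ p ∈ pz (2 * c), (p : ℝ)⁻¹) * Real.exp (-(∑' n : ℕ, 2 * (c : ℝ) ^ 2 / (n : ℝ) ^ 2)) with hv0
  have hv00 : 0 < v0 := by
    apply mul_pos _ (Real.exp_pos _)
    apply Finset.prod_pos
    intro p hp
    have : (0 : ℝ) < p := by exact_mod_cast (mem_pz.1 hp).2.pos
    positivity
  refine ⟨v0 * Real.exp (-CC), Real.exp (CC + M1), by positivity, Real.exp_pos _, ?_⟩
  intro y hy
  have h1 := abs_le.1 (hsum y hy)
  constructor
  · refine le_trans ?_ (Vq_low (Q f) c hQ (adm f hf) y)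
    rw [← hv0]
    have h2 : ∑ p ∈ pz y, (nuB (Q f) p : ℝ) / p ≤ ∑ i, ∑ p ∈ pz y, (rho (f i) p : ℝ) / p := by
      rw [Finset.sum_comm]
      apply Finset.sum_le_sum
      intro p _
      rw [← Finset.sum_div]
      apply div_le_div_of_nonneg_right _ (Nat.cast_nonneg _)
      exact_mod_cast nuB_le_sum f p
    calc v0 * Real.exp (-CC) / Real.log y ^ (Fintype.card ι) =
        v0 * (Real.exp (-CC) * (1 / Real.log y ^ (Fintype.card ι))) := by ring
      _ = v0 * Real.exp (-CC + -((Fintype.card ι : ℝ) * Real.log (Real.log y))) := by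
        rw [← hloglog y hy, ← Real.exp_add]
      _ ≤ _ := by
        apply mul_le_mul_of_nonneg_left _ hv00.le
        apply Real.exp_le_exp.2
        linarith
  · refine (Vq_up (Q f) y).trans ?_
    have h2 : ∑ i, ∑ p ∈ pz y, (rho (f i) p : ℝ) / p ≤ ∑ p ∈ pz y, (nuB (Q f) p : ℝ) / p + M1 := by
      rw [Finset.sum_comm, hM1]
      have h3 : ∑ p ∈ pz y, ∑ i, (rho (f i) p : ℝ) / p ≤ ∑ p ∈ pz y, ((nuB (Q f) p : ℝ) / p +
          if p ≤ p1 then ∑ i, (rho (f i) p : ℝ) / p else 0) := by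
        apply Finset.sum_le_sum
        intro p hp
        split_ifs with h
        · have : 0 ≤ (nuB (Q f) p : ℝ) / p := by positivity
          linarith
        · rw [add_zero, ← Finset.sum_div]
          apply div_le_div_of_nonneg_right _ (Nat.cast_nonneg _)
          exact_mod_cast sum_le_nuB f p (hp1 p (mem_pz.1 hp).2 (not_le.1 h))
      refine h3.trans ?_
      rw [Finset.sum_add_distrib, ← Finset.sum_filter]
      have h4 : ∑ p ∈ (pz y).filter (fun p => p ≤ p1), ∑ i, (rho (f i) p : ℝ) / p ≤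
          ∑ p ∈ pz p1, ∑ i, (rho (f i) p : ℝ) / p := by
        apply Finset.sum_le_sum_of_subset_of_nonneg
        · intro p hp
          rw [mem_filter, mem_pz] at hp
          exact mem_pz.2 ⟨hp.2, hp.1.2⟩
        · intro p _ _
          exact Finset.sum_nonneg fun i _ => by positivity
      linarith
    calc Real.exp (-(∑ p ∈ pz y, (nuB (Q f) p : ℝ) / p)) ≤
        Real.exp (CC + M1 + -((Fintype.card ι : ℝ) * Real.log (Real.log y))) := by
          apply Real.exp_le_exp.2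
          linarith
      _ = Real.exp (CC + M1) * (1 / Real.log y ^ (Fintype.card ι)) := by
          rw [Real.exp_add, hloglog y hy]
      _ = _ := by ring

end Pool.Agent.W123.RU.Poly
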